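import Pool.Agent.L5helper60.DN.Fin

/-!
# Read-once branching programs as decomposable circuits
-/

set_option autoImplicit false
set_option linter.unusedSectionVars false

open Finset

namespace Pool.Agent.L5helper60.DN

/-- Deterministic branching programs for functions of the subsets of `V`. A node is a sink with a
truth value, or it has a variable `v` and two successors, the first one for sets with `v`, the second
one for sets without `v`. The nodes are numbered so that every edge leads to a smaller number. -/
structure BProg (V : Type) where
  size : ℕ
  node : Fin size → Bool ⊕ V × Fin size × Fin size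
  lt : ∀ i v j k, node i = .inr (v, j, k) → j < i ∧ k < i

variable {V : Type}

/-- the computation on `S` which starts at the node ends at a sink with the value `true` -/
inductive BProg.Accepts (P : BProg V) (S : Finset V) : Fin P.size → Prop
  | sink {i : Fin P.size} (h : P.node i = .inl true) : Accepts P S i
  | one {i j k : Fin P.size} {v : V} (h : P.node i = .inr (v, j, k)) (hv : v ∈ S)
      (hj : Accepts P S j) : Accepts P S i
  | zero {i j k : Fin P.size} {v : V} (h : P.node i = .inr (v, j, k)) (hv : v ∉ S)
      (hk : Accepts P S k) : Accepts P S i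

/-- the variable `v` is tested at a node on some path which starts at the given node -/
inductive BProg.Tests (P : BProg V) (v : V) : Fin P.size → Prop
  | here {i j k : Fin P.size} (h : P.node i = .inr (v, j, k)) : Tests P v i
  | left {i j k : Fin P.size} {w : V} (h : P.node i = .inr (w, j, k)) (hj : Tests P v j) :
      Tests P v i
  | right {i j k : Fin P.size} {w : V} (h : P.node i = .inr (w, j, k)) (hk : Tests P v k) :
      Tests P v i

/-- no path tests a variable twice -/
def BProg.ReadOnce (P : BProg V) : Prop :=
  ∀ i v j k, P.node i = .inr (v, j, k) → ¬ P.Tests v j ∧ ¬ P.Tests v k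

variable [DecidableEq V] [Fintype V]

open Classical in
/-- the variables below a node -/
noncomputable def BProg.vs (P : BProg V) (i : Fin P.size) : Finset V :=
  univ.filter fun v => P.Tests v i

theorem BProg.mem_vs {P : BProg V} {i : Fin P.size} {v : V} : v ∈ P.vs i ↔ P.Tests v i := by
  unfold BProg.vs
  simp

theorem BProg.vs_sink {P : BProg V} {i : Fin P.size} {b : Bool} (h : P.node i = .inl b) :
    P.vs i = ∅ := by
  ext v
  rw [BProg.mem_vs]
  constructor
  · intro hv
    cases hv with
    | here h' => rw [h] at h'; cases h'
    | left h' _ => rw [h] at h'; cases h'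
    | right h' _ => rw [h] at h'; cases h'
  · intro hv
    exact absurd hv (notMem_empty v)

theorem BProg.vs_node {P : BProg V} {i j k : Fin P.size} {v : V}
    (h : P.node i = .inr (v, j, k)) :
    P.vs i = ({v} ∪ P.vs j) ∪ ({v} ∪ P.vs k) := by
  ext w
  simp only [mem_union, mem_singleton, BProg.mem_vs]
  constructor
  · intro hw
    cases hw with
    | here h' =>
      rw [h] at h'
      simp only [Sum.inr.injEq, Prod.mk.injEq] at h'
      exact Or.inl (Or.inl h'.1.symm)
    | left h' hj =>
      rw [h] at h'
      simp only [Sum.inr.injEq, Prod.mk.injEq] at h'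
      rw [← h'.2.1] at hj
      exact Or.inl (Or.inr hj)
    | right h' hk =>
      rw [h] at h'
      simp only [Sum.inr.injEq, Prod.mk.injEq] at h'
      rw [← h'.2.2] at hk
      exact Or.inr (Or.inr hk)
  · rintro ((rfl | hw) | (rfl | hw))
    · exact .here h
    · exact .left h hw
    · exact .here h
    · exact .right h hw

theorem BProg.accepts_sink {P : BProg V} {S : Finset V} {i : Fin P.size} {b : Bool}
    (h : P.node i = .inl b) : P.Accepts S i ↔ b = true := by
  constructor
  · intro ha
    cases ha with
    | sink h' => rw [h] at h'; simpa using h'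
    | one h' _ _ => rw [h] at h'; cases h'
    | zero h' _ _ => rw [h] at h'; cases h'
  · rintro rfl
    exact .sink h

theorem BProg.accepts_node {P : BProg V} {S : Finset V} {i j k : Fin P.size} {v : V}
    (h : P.node i = .inr (v, j, k)) :
    P.Accepts S i ↔ (v ∈ S ∧ P.Accepts S j) ∨ (v ∉ S ∧ P.Accepts S k) := by
  constructor
  · intro ha
    cases ha with
    | sink h' => rw [h] at h'; cases h'
    | one h' hv hj =>
      rw [h] at h'
      simp only [Sum.inr.injEq, Prod.mk.injEq] at h'
      obtain ⟨rfl, rfl, rfl⟩ := h'
      exact Or.inl ⟨hv, hj⟩
    | zero h' hv hk =>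
      rw [h] at h'
      simp only [Sum.inr.injEq, Prod.mk.injEq] at h'
      obtain ⟨rfl, rfl, rfl⟩ := h'
      exact Or.inr ⟨hv, hk⟩
  · rintro (⟨hv, hj⟩ | ⟨hv, hk⟩)
    · exact .one h hv hj
    · exact .zero h hv hk

/-- the vertex sets of the five gates which belong to a node -/
noncomputable def gvars (P : BProg V) (i : Fin P.size) (a : Fin 5) : Finset V :=
  match P.node i with
  | .inl _ => ∅
  | .inr (v, j, k) =>
    if a = 0 then {v} else if a = 1 then {v} else if a = 2 then {v} ∪ P.vs j
    else if a = 3 then {v} ∪ P.vs k else P.vs i

/-- the values of the five gates which belong to a node -/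
noncomputable def gval (P : BProg V) (i : Fin P.size) (a : Fin 5) (S : Finset V) : ℝ :=
  match P.node i with
  | .inl b => if a = 4 then ind (b = true) else 0
  | .inr (v, j, k) =>
    if a = 0 then ind (v ∈ S) else if a = 1 then ind (v ∉ S)
    else if a = 2 then ind (v ∈ S) * ind (P.Accepts S j)
    else if a = 3 then ind (v ∉ S) * ind (P.Accepts S k) else ind (P.Accepts S i)

theorem gvars_four (P : BProg V) (i : Fin P.size) : gvars P i 4 = P.vs i := by
  unfold gvars
  rcases h : P.node i with b | ⟨v, j, k⟩
  · simp only
    exact (BProg.vs_sink h).symm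
  · simp

theorem gval_four (P : BProg V) (i : Fin P.size) (S : Finset V) :
    gval P i 4 S = ind (P.Accepts S i) := by
  unfold gval
  rcases h : P.node i with b | ⟨v, j, k⟩
  · simp only [if_true]
    exact ind_congr (BProg.accepts_sink h).symm
  · simp

theorem ind_nonneg (p : Prop) : 0 ≤ ind p := by
  unfold ind
  split_ifs <;> norm_num

theorem ind_and_or {p q r : Prop} : ind ((p ∧ q) ∨ (¬ p ∧ r)) = ind p * ind q + ind (¬ p) * ind r := by
  unfold ind
  by_cases hp : p <;> by_cases hq : q <;> by_cases hr : r <;> simp [hp, hq, hr]

/-- a read-once branching program as a decomposable circuit -/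
noncomputable def BProg.toCirc (P : BProg V) (hP : P.ReadOnce) {t : ℕ} (ht : 1 ≤ t) : Circ V t where
  size := P.size * 5
  vars := fun x => gvars P (finProdFinEquiv.symm x).1 (finProdFinEquiv.symm x).2
  val := fun x => gval P (finProdFinEquiv.symm x).1 (finProdFinEquiv.symm x).2
  ok := by
    intro x
    obtain ⟨⟨i, a⟩, rfl⟩ := finProdFinEquiv.surjective x
    simp only [Equiv.symm_apply_apply]
    have hlt : ∀ (i' : Fin P.size) (a' : Fin 5), (i' < i ∨ (i' = i ∧ a' < a)) →
        finProdFinEquiv (i', a') < finProdFinEquiv (i, a) := by
      intro i' a' h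
      rw [Fin.lt_def]
      simp only [finProdFinEquiv_apply_val]
      have h1 := a'.2
      have h2 := a.2
      rcases h with h | ⟨rfl, h⟩
      · have : i'.1 + 1 ≤ i.1 := h
        omega
      · have : a'.1 < a.1 := h
        omega
    rcases h : P.node i with b | ⟨v, j, k⟩
    · -- a sink
      refine Or.inl ⟨?_, fun S => ?_, fun S S' _ => ?_⟩
      · unfold gvars
        simp only [h]
        simp
      · unfold gval
        simp only [h]
        split_ifs
        · exact ind_nonneg _
        · exact le_rfl
      · unfold gval
        simp only [h]
    · obtain ⟨hj, hk⟩ := P.lt i v j k h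
      obtain ⟨hr1, hr2⟩ := hP i v j k h
      have e4 : gvars P i 4 = P.vs i := gvars_four P i
      fin_cases a
      · refine Or.inl ⟨?_, fun S => ?_, fun S S' hS => ?_⟩
        · unfold gvars
          simp only [h]
          simpa using ht
        · unfold gval
          simp only [h]
          exact ind_nonneg _
        · unfold gval
          simp only [h]
          refine ind_congr (hS v ?_)
          unfold gvars
          simp only [h]
          exact mem_singleton_self v
      · refine Or.inl ⟨?_, fun S => ?_, fun S S' hS => ?_⟩
        · unfold gvars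
          simp only [h]
          simpa using ht
        · unfold gval
          simp only [h]
          exact ind_nonneg _
        · unfold gval
          simp only [h]
          refine ind_congr (not_congr (hS v ?_))
          unfold gvars
          simp only [h]
          exact mem_singleton_self v
      · refine Or.inr (Or.inr ⟨finProdFinEquiv (i, 0), finProdFinEquiv (j, 4),
          hlt i 0 (Or.inr ⟨rfl, by decide⟩), hlt j 4 (Or.inl hj), ?_, ?_, fun S => ?_⟩)
        · rw [Equiv.symm_apply_apply, Equiv.symm_apply_apply, gvars_four]
          unfold gvars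
          simp only [h]
          rfl
        · rw [Equiv.symm_apply_apply, Equiv.symm_apply_apply, gvars_four]
          unfold gvars
          simp only [h]
          exact disjoint_singleton_left.2 fun h' => hr1 (BProg.mem_vs.1 h')
        · rw [Equiv.symm_apply_apply, Equiv.symm_apply_apply, gval_four]
          unfold gval
          simp only [h]
          rfl
      · refine Or.inr (Or.inr ⟨finProdFinEquiv (i, 1), finProdFinEquiv (k, 4),
          hlt i 1 (Or.inr ⟨rfl, by decide⟩), hlt k 4 (Or.inl hk), ?_, ?_, fun S => ?_⟩)
        · rw [Equiv.symm_apply_apply, Equiv.symm_apply_apply, gvars_four]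
          unfold gvars
          simp only [h]
          rfl
        · rw [Equiv.symm_apply_apply, Equiv.symm_apply_apply, gvars_four]
          unfold gvars
          simp only [h]
          exact disjoint_singleton_left.2 fun h' => hr2 (BProg.mem_vs.1 h')
        · rw [Equiv.symm_apply_apply, Equiv.symm_apply_apply, gval_four]
          unfold gval
          simp only [h]
          rfl
      · refine Or.inr (Or.inl ⟨finProdFinEquiv (i, 2), finProdFinEquiv (i, 3),
          hlt i 2 (Or.inr ⟨rfl, by decide⟩), hlt i 3 (Or.inr ⟨rfl, by decide⟩), ?_, fun S => ?_⟩)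
        · rw [Equiv.symm_apply_apply, Equiv.symm_apply_apply]
          show gvars P i 4 = _
          rw [gvars_four, BProg.vs_node h]
          unfold gvars
          simp only [h]
          rfl
        · rw [Equiv.symm_apply_apply, Equiv.symm_apply_apply]
          show gval P i 4 S = _
          rw [gval_four, ind_congr (BProg.accepts_node h), ind_and_or]
          unfold gval
          simp only [h]
          rfl

theorem BProg.toCirc_size (P : BProg V) (hP : P.ReadOnce) {t : ℕ} (ht : 1 ≤ t) :
    (P.toCirc hP ht).size = P.size * 5 := rfl

theorem BProg.toCirc_val (P : BProg V) (hP : P.ReadOnce) {t : ℕ} (ht : 1 ≤ t)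
    (o : Fin P.size) (S : Finset V) :
    (P.toCirc hP ht).val (finProdFinEquiv (o, 4)) S = ind (P.Accepts S o) := by
  show gval P (finProdFinEquiv.symm (finProdFinEquiv (o, 4))).1
    (finProdFinEquiv.symm (finProdFinEquiv (o, (4 : Fin 5)))).2 S = _
  rw [Equiv.symm_apply_apply]
  exact gval_four P o S

end Pool.Agent.L5helper60.DN
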