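import Mathlib

/-!
# Decomposable circuits with nonnegative weights, and their balanced rectangle decomposition
-/

set_option autoImplicit false
set_option linter.unusedSectionVars false

open Finset

namespace Pool.Agent.L5helper60.DN

variable {V : Type} [DecidableEq V]

/-- the value of `f` depends only on the elements of `S` which belong to `A` -/
def DependsOn (f : Finset V → ℝ) (A : Finset V) : Prop :=
  ∀ S S', (∀ v ∈ A, v ∈ S ↔ v ∈ S') → f S = f S'

theorem DependsOn.mono {f : Finset V → ℝ} {A B : Finset V} (h : DependsOn f A) (hAB : A ⊆ B) :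
    DependsOn f B := fun S S' hS => h S S' fun v hv => hS v (hAB hv)

/-- A decomposable circuit with nonnegative weights for functions of the subsets of `V`: a sequence of
gates; `vars i` is the set of the vertices below gate `i`, and `val i S` is its value. Every gate is
* an arbitrary nonnegative function of at most `t` vertices, or
* the sum of two earlier gates, or
* the product of two earlier gates which depend on disjoint sets of vertices. -/
structure Circ (V : Type) [DecidableEq V] (t : ℕ) where
  size : ℕ
  vars : Fin size → Finset V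
  val : Fin size → Finset V → ℝ
  ok : ∀ i, ((vars i).card ≤ t ∧ (∀ S, 0 ≤ val i S) ∧ DependsOn (val i) (vars i)) ∨
    (∃ j k, j < i ∧ k < i ∧ vars i = vars j ∪ vars k ∧ ∀ S, val i S = val j S + val k S) ∨
    (∃ j k, j < i ∧ k < i ∧ vars i = vars j ∪ vars k ∧ Disjoint (vars j) (vars k) ∧
      ∀ S, val i S = val j S * val k S)

variable {t : ℕ} (C : Circ V t)

theorem Circ.nonneg : ∀ i S, 0 ≤ C.val i S := by
  intro i
  induction i using WellFoundedLT.induction with
  | _ i ih =>
    intro S
    rcases C.ok i with ⟨-, h, -⟩ | ⟨j, k, hj, hk, -, h⟩ | ⟨j, k, hj, hk, -, -, h⟩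
    · exact h S
    · rw [h]; exact add_nonneg (ih j hj S) (ih k hk S)
    · rw [h]; exact mul_nonneg (ih j hj S) (ih k hk S)

theorem Circ.depends : ∀ i, DependsOn (C.val i) (C.vars i) := by
  intro i
  induction i using WellFoundedLT.induction with
  | _ i ih =>
    rcases C.ok i with ⟨-, -, h⟩ | ⟨j, k, hj, hk, hv, h⟩ | ⟨j, k, hj, hk, hv, -, h⟩
    · exact h
    · intro S S' hS
      rw [h, h, (ih j hj).mono (hv ▸ subset_union_left) S S' hS,
        (ih k hk).mono (hv ▸ subset_union_right) S S' hS]
    · intro S S' hS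
      rw [h, h, (ih j hj).mono (hv ▸ subset_union_left) S S' hS,
        (ih k hk).mono (hv ▸ subset_union_right) S S' hS]

/-- a set between `A` and `B` with a balanced part in `X` -/
theorem exists_between {A B X : Finset V} (hAB : A ⊆ B) (hX : 2 ≤ X.card)
    (hA : 3 * (A ∩ X).card ≤ 2 * X.card) (hB : 2 * X.card < 3 * (B ∩ X).card) :
    ∃ D, A ⊆ D ∧ D ⊆ B ∧ X.card ≤ 3 * (D ∩ X).card ∧ 3 * (D ∩ X).card ≤ 2 * X.card := by
  have h1 : (A ∩ X).card ≤ max (A ∩ X).card ((X.card + 2) / 3) := le_max_left _ _
  have h2 : max (A ∩ X).card ((X.card + 2) / 3) ≤ (B ∩ X).card := by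
    have := card_le_card (inter_subset_inter_right hAB (u := X))
    omega
  obtain ⟨u, hu1, hu2, hu3⟩ := exists_subsuperset_card_eq (inter_subset_inter_right hAB (u := X))
    h1 h2
  have hDX : (A ∪ u) ∩ X = u := by
    ext x
    simp only [mem_inter, mem_union]
    constructor
    · rintro ⟨h | h, hx⟩
      · exact hu1 (mem_inter.2 ⟨h, hx⟩)
      · exact h
    · intro h
      exact ⟨Or.inr h, (mem_inter.1 (hu2 h)).2⟩
  refine ⟨A ∪ u, subset_union_left, union_subset hAB (hu2.trans inter_subset_left), ?_, ?_⟩
  · rw [hDX, hu3]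
    omega
  · rw [hDX, hu3]
    omega

end Pool.Agent.L5helper60.DN
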