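import Pool.Agent.L5helper60.DN.Circ

/-!
# Balanced decomposition of a decomposable circuit
-/

set_option autoImplicit false
set_option linter.unusedSectionVars false

open Finset

namespace Pool.Agent.L5helper60.DN

variable {V : Type} [DecidableEq V]

/-- the value of `f` does not depend on the elements of `A` -/
def IndepOf (f : Finset V → ℝ) (A : Finset V) : Prop :=
  ∀ S S', (∀ v, v ∉ A → (v ∈ S ↔ v ∈ S')) → f S = f S'

theorem DependsOn.indep {f : Finset V → ℝ} {A B : Finset V} (h : DependsOn f A)
    (hAB : Disjoint A B) : IndepOf f B := fun S S' hS => h S S' fun v hv =>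
  hS v fun hB => (disjoint_left.1 hAB) hv hB

/-- the shape of a gate -/
inductive Kind (n : ℕ) where
  | inp
  | add (j k : Fin n)
  | mul (j k : Fin n)

variable {t : ℕ}

/-- what the shape of a gate says; the first factor of a product has at least as many vertices in `X`
as the second one -/
def Spec (C : Circ V t) (X : Finset V) (i : Fin C.size) : Kind C.size → Prop
  | .inp => (C.vars i).card ≤ t
  | .add j k => j < i ∧ k < i ∧ C.vars i = C.vars j ∪ C.vars k ∧
      ∀ S, C.val i S = C.val j S + C.val k S
  | .mul j k => j < i ∧ k < i ∧ C.vars i = C.vars j ∪ C.vars k ∧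
      Disjoint (C.vars j) (C.vars k) ∧ (C.vars k ∩ X).card ≤ (C.vars j ∩ X).card ∧
      ∀ S, C.val i S = C.val j S * C.val k S

theorem exists_kind (C : Circ V t) (X : Finset V) (i : Fin C.size) : ∃ κ, Spec C X i κ := by
  rcases C.ok i with ⟨h, -, -⟩ | ⟨j, k, h⟩ | ⟨j, k, hj, hk, hv, hd, h⟩
  · exact ⟨.inp, h⟩
  · exact ⟨.add j k, h⟩
  · rcases le_total (C.vars k ∩ X).card (C.vars j ∩ X).card with hle | hle
    · exact ⟨.mul j k, hj, hk, hv, hd, hle, h⟩
    · exact ⟨.mul k j, hk, hj, by rw [hv, union_comm], hd.symm, hle, fun S => by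
        rw [h, mul_comm]⟩

/-- the child of a gate which belongs to a wire -/
def child {n : ℕ} : Kind n → Bool → Option (Fin n)
  | .inp, _ => none
  | .add j _, false => some j
  | .add _ k, true => some k
  | .mul j _, false => some j
  | .mul _ _, true => none

/-- the gate has more than two thirds of the vertices of `X` -/
def Heavy (C : Circ V t) (X : Finset V) (i : Fin C.size) : Prop :=
  2 * X.card < 3 * (C.vars i ∩ X).card

/-- the set belongs to the wire `(p, b)` -/
def Good (C : Circ V t) (X : Finset V) (κ : Fin C.size → Kind C.size) (p : Fin C.size) (b : Bool)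
    (D : Finset V) : Prop :=
  X.card ≤ 3 * (D ∩ X).card ∧ 3 * (D ∩ X).card ≤ 2 * X.card ∧
    ∀ c, child (κ p) b = some c → Heavy C X p → ¬ Heavy C X c →
      C.vars c ⊆ D ∧ D ⊆ C.vars p ∧ ∀ j k, κ p = .mul j k → D = C.vars j

theorem exists_bal (X : Finset V) (hX : 2 ≤ X.card) :
    ∃ D : Finset V, X.card ≤ 3 * (D ∩ X).card ∧ 3 * (D ∩ X).card ≤ 2 * X.card := by
  obtain ⟨D, -, -, h1, h2⟩ := exists_between (A := ∅) (B := X) (X := X) (empty_subset _) hX
    (by simp) (by rw [inter_self]; omega)
  exact ⟨D, h1, h2⟩

theorem exists_good (C : Circ V t) (X : Finset V) (hX : 2 ≤ X.card)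
    (κ : Fin C.size → Kind C.size) (hκ : ∀ i, Spec C X i (κ i)) (p : Fin C.size) (b : Bool) :
    ∃ D, Good C X κ p b D := by
  classical
  by_cases hact : ∃ c, child (κ p) b = some c ∧ Heavy C X p ∧ ¬ Heavy C X c
  · obtain ⟨c, hc, hp, hcl⟩ := hact
    have hs := hκ p
    unfold Heavy at hp hcl
    cases hk : κ p with
    | inp => rw [hk] at hc; cases b <;> simp [child] at hc
    | add j k =>
      rw [hk] at hs hc
      obtain ⟨-, -, hv, -⟩ := hs
      have hsub : C.vars c ⊆ C.vars p := by
        cases b
        · simp only [child, Option.some.injEq] at hc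
          subst hc
          rw [hv]; exact subset_union_left
        · simp only [child, Option.some.injEq] at hc
          subst hc
          rw [hv]; exact subset_union_right
      obtain ⟨D, h1, h2, h3, h4⟩ := exists_between hsub hX (by omega) hp
      refine ⟨D, h3, h4, fun c' hc' _ _ => ?_⟩
      have : c' = c := by
        rw [hk] at hc'
        have := hc'.symm.trans hc
        simpa using this
      subst this
      refine ⟨h1, h2, fun j' k' h' => ?_⟩
      rw [hk] at h'
      cases h'
    | mul j k =>
      rw [hk] at hs hc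
      obtain ⟨-, -, hv, hd, hle, -⟩ := hs
      cases b
      · simp only [child, Option.some.injEq] at hc
        subst hc
        have hcard : (C.vars p ∩ X).card ≤ (C.vars j ∩ X).card + (C.vars k ∩ X).card := by
          rw [hv, union_inter_distrib_right]
          exact card_union_le _ _
        refine ⟨C.vars j, by omega, by omega, fun c' hc' _ _ => ?_⟩
        have : c' = j := by
          rw [hk] at hc'
          simpa [child] using hc'.symm
        subst this
        refine ⟨subset_rfl, by rw [hv]; exact subset_union_left, fun j' k' h' => ?_⟩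
        rw [hk] at h'
        cases h'
        rfl
      · simp [child] at hc
  · obtain ⟨D, h1, h2⟩ := exists_bal X hX
    exact ⟨D, h1, h2, fun c hc hp hcl => absurd ⟨c, hc, hp, hcl⟩ hact⟩

open Classical in
/-- the value of the wire -/
noncomputable def gv (C : Circ V t) (X : Finset V) (κ : Fin C.size → Kind C.size)
    (e : Fin C.size × Bool) (S : Finset V) : ℝ :=
  match child (κ e.1) e.2 with
  | none => 0
  | some c => if Heavy C X e.1 ∧ ¬ Heavy C X c then C.val c S else 0

theorem gv_nonneg (C : Circ V t) (X : Finset V) (κ : Fin C.size → Kind C.size)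
    (e : Fin C.size × Bool) (S : Finset V) : 0 ≤ gv C X κ e S := by
  unfold gv
  split
  · exact le_rfl
  · split_ifs
    · exact C.nonneg _ _
    · exact le_rfl

theorem gv_depends (C : Circ V t) (X : Finset V) (κ : Fin C.size → Kind C.size)
    (e : Fin C.size × Bool) {D : Finset V} (h : Good C X κ e.1 e.2 D) :
    DependsOn (gv C X κ e) D := by
  intro S S' hS
  unfold gv
  split
  · rfl
  · next c hc =>
    split_ifs with hh
    · exact (C.depends c).mono (h.2.2 c hc hh.1 hh.2).1 S S' hS
    · rfl

/-- the part of the decomposition which belongs to a child of a gate -/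
theorem part (C : Circ V t) (X : Finset V) (κ : Fin C.size → Kind C.size)
    (A : Fin C.size × Bool → Finset V) (i c : Fin C.size) (b : Bool)
    (hi : Heavy C X i) (hc : child (κ i) b = some c) (B : Finset V) (hcB : C.vars c ⊆ B)
    (hB : ¬ Heavy C X c → A (i, b) ⊆ B)
    (ih : Heavy C X c → ∃ h : Fin C.size × Bool → Finset V → ℝ, (∀ e S, 0 ≤ h e S) ∧
      (∀ e, (A e ⊆ C.vars c ∨ h e = 0) ∧ IndepOf (h e) (A e)) ∧
      ∀ S, C.val c S = ∑ e, gv C X κ e S * h e S) :
    ∃ h : Fin C.size × Bool → Finset V → ℝ, (∀ e S, 0 ≤ h e S) ∧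
      (∀ e, (A e ⊆ B ∨ h e = 0) ∧ IndepOf (h e) (A e)) ∧
      ∀ S, C.val c S = ∑ e, gv C X κ e S * h e S := by
  classical
  by_cases hh : Heavy C X c
  · obtain ⟨h, h1, h2, h3⟩ := ih hh
    exact ⟨h, h1, fun e => ⟨(h2 e).1.imp (fun h => h.trans hcB) id, (h2 e).2⟩, h3⟩
  · refine ⟨fun e _ => if e = (i, b) then 1 else 0, fun e S => ?_, fun e => ⟨?_, ?_⟩, fun S => ?_⟩
    · show (0 : ℝ) ≤ if e = (i, b) then 1 else 0
      split_ifs <;> norm_num
    · by_cases he : e = (i, b)
      · left; rw [he]; exact hB hh
      · right; ext S; simp [he]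
    · intro S S' _; rfl
    · rw [Finset.sum_eq_single (i, b)]
      · show C.val c S = gv C X κ (i, b) S * if (i, b) = (i, b) then 1 else 0
        rw [if_pos rfl, mul_one]
        unfold gv
        simp only [hc]
        rw [if_pos ⟨hi, hh⟩]
      · intro e _ he
        show gv C X κ e S * (if e = (i, b) then 1 else 0) = 0
        rw [if_neg he, mul_zero]
      · intro h; exact absurd (mem_univ _) h

theorem heavy_decomp (C : Circ V t) (X : Finset V) (ht : 3 * t ≤ 2 * X.card)
    (κ : Fin C.size → Kind C.size) (hκ : ∀ i, Spec C X i (κ i))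
    (A : Fin C.size × Bool → Finset V) (hA : ∀ e, Good C X κ e.1 e.2 (A e)) :
    ∀ i, Heavy C X i → ∃ h : Fin C.size × Bool → Finset V → ℝ, (∀ e S, 0 ≤ h e S) ∧
      (∀ e, (A e ⊆ C.vars i ∨ h e = 0) ∧ IndepOf (h e) (A e)) ∧
      ∀ S, C.val i S = ∑ e, gv C X κ e S * h e S := by
  intro i
  induction i using WellFoundedLT.induction with
  | _ i ih =>
    intro hi
    have hs := hκ i
    cases hk : κ i with
    | inp =>
      rw [hk] at hs
      exfalso
      unfold Heavy at hi
      have h1 := card_le_card (inter_subset_left (s₁ := C.vars i) (s₂ := X))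
      have h2 : (C.vars i).card ≤ t := hs
      omega
    | add j k =>
      rw [hk] at hs
      obtain ⟨hj, hkk, hv, hval⟩ := hs
      have cj : child (κ i) false = some j := by rw [hk]; rfl
      have ck : child (κ i) true = some k := by rw [hk]; rfl
      obtain ⟨h, h1, h2, h3⟩ := part C X κ A i j false hi cj (C.vars i)
        (by rw [hv]; exact subset_union_left) (fun hl => ((hA (i, false)).2.2 j cj hi hl).2.1)
        (ih j hj)
      obtain ⟨h', h1', h2', h3'⟩ := part C X κ A i k true hi ck (C.vars i)
        (by rw [hv]; exact subset_union_right) (fun hl => ((hA (i, true)).2.2 k ck hi hl).2.1)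
        (ih k hkk)
      refine ⟨fun e S => h e S + h' e S, fun e S => add_nonneg (h1 e S) (h1' e S),
        fun e => ⟨?_, ?_⟩, fun S => ?_⟩
      · rcases (h2 e).1 with a | a
        · exact Or.inl a
        · rcases (h2' e).1 with a' | a'
          · exact Or.inl a'
          · right; ext S; simp [a, a']
      · intro S S' hS
        show h e S + h' e S = h e S' + h' e S'
        rw [(h2 e).2 S S' hS, (h2' e).2 S S' hS]
      · rw [hval, h3, h3', ← Finset.sum_add_distrib]
        exact Finset.sum_congr rfl fun e _ => by ring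
    | mul j k =>
      rw [hk] at hs
      obtain ⟨hj, hkk, hv, hd, hle, hval⟩ := hs
      have cj : child (κ i) false = some j := by rw [hk]; rfl
      obtain ⟨h, h1, h2, h3⟩ := part C X κ A i j false hi cj (C.vars j) subset_rfl
        (fun hl => by rw [((hA (i, false)).2.2 j cj hi hl).2.2 j k hk]) (ih j hj)
      refine ⟨fun e S => h e S * C.val k S, fun e S => mul_nonneg (h1 e S) (C.nonneg k S),
        fun e => ⟨?_, ?_⟩, fun S => ?_⟩
      · rcases (h2 e).1 with a | a
        · exact Or.inl (a.trans (by rw [hv]; exact subset_union_left))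
        · right; ext S; simp [a]
      · intro S S' hS
        show h e S * C.val k S = h e S' * C.val k S'
        rcases (h2 e).1 with a | a
        · rw [(h2 e).2 S S' hS,
            (C.depends k).indep (disjoint_of_subset_right a hd.symm) S S' hS]
        · rw [a]; simp
      · rw [hval, h3, Finset.sum_mul]
        exact Finset.sum_congr rfl fun e _ => by ring

/-- **Balanced decomposition.** The function computed by a decomposable circuit is a sum of `2 s + 1`
products of a nonnegative function of the vertices in `A e` and a nonnegative function of the other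
vertices, where `A e` contains between one third and two thirds of `X`. -/
theorem Circ.decomp (C : Circ V t) (X : Finset V) (hX : 2 ≤ X.card) (ht : 3 * t ≤ 2 * X.card)
    (o : Fin C.size) :
    ∃ (A : Option (Fin C.size × Bool) → Finset V)
      (g h : Option (Fin C.size × Bool) → Finset V → ℝ),
      (∀ e, X.card ≤ 3 * (A e ∩ X).card ∧ 3 * (A e ∩ X).card ≤ 2 * X.card) ∧
      (∀ e S, 0 ≤ g e S) ∧ (∀ e S, 0 ≤ h e S) ∧ (∀ e, DependsOn (g e) (A e)) ∧
      (∀ e, IndepOf (h e) (A e)) ∧ ∀ S, C.val o S = ∑ e, g e S * h e S := by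
  classical
  choose κ hκ using exists_kind C X
  have hA : ∀ e : Fin C.size × Bool, ∃ D, Good C X κ e.1 e.2 D := fun e =>
    exists_good C X hX κ hκ e.1 e.2
  choose A hA using hA
  by_cases ho : Heavy C X o
  · obtain ⟨h, h1, h2, h3⟩ := heavy_decomp C X ht κ hκ A hA o ho
    obtain ⟨D, hD1, hD2⟩ := exists_bal X hX
    refine ⟨fun e => e.elim D A, fun e => e.elim (fun _ => 0) (gv C X κ),
      fun e => e.elim (fun _ => 0) h, ?_, ?_, ?_, ?_, ?_, ?_⟩
    · rintro (_ | e)
      · exact ⟨hD1, hD2⟩
      · exact ⟨(hA e).1, (hA e).2.1⟩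
    · rintro (_ | e) S
      · exact le_rfl
      · exact gv_nonneg _ _ _ _ _
    · rintro (_ | e) S
      · exact le_rfl
      · exact h1 e S
    · rintro (_ | e)
      · intro _ _ _; rfl
      · exact gv_depends C X κ e (hA e)
    · rintro (_ | e)
      · intro _ _ _; rfl
      · exact (h2 e).2
    · intro S
      rw [Fintype.sum_option]
      simpa using h3 S
  · obtain ⟨D, hD0, -, hD1, hD2⟩ := exists_between (A := C.vars o) (B := C.vars o ∪ X) (X := X)
      subset_union_left hX (by unfold Heavy at ho; omega)
      (by rw [union_inter_distrib_right, inter_self,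
            union_eq_right.2 (inter_subset_right)]; omega)
    refine ⟨fun _ => D, fun e => e.elim (C.val o) (fun _ _ => 0),
      fun e => e.elim (fun _ => 1) (fun _ _ => 0), ?_, ?_, ?_, ?_, ?_, ?_⟩
    · exact fun _ => ⟨hD1, hD2⟩
    · rintro (_ | e) S
      · exact C.nonneg o S
      · exact le_rfl
    · rintro (_ | e) S
      · exact zero_le_one
      · exact le_rfl
    · rintro (_ | e)
      · exact (C.depends o).mono hD0
      · intro _ _ _; rfl
    · rintro (_ | e)
      · intro _ _ _; rfl
      · intro _ _ _; rfl
    · intro S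
      rw [Fintype.sum_option]
      simp

end Pool.Agent.L5helper60.DN
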