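import Pool.Agent.L5helper60.DN.Low

/-!
# Good designs with a constant number of tuples at each leaf
-/

set_option autoImplicit false
set_option linter.unusedSectionVars false

open Finset

namespace Pool.Agent.L5helper60.DN

/-! ### Injective functions -/

open Classical in
/-- the number of the injective functions -/
noncomputable def nInjF (α β : Type) [Fintype α] [DecidableEq α] [Fintype β] : ℕ :=
  (univ.filter fun f : α → β => Function.Injective f).card

theorem nInjF_eq (α β : Type) [Fintype α] [DecidableEq α] [Fintype β] :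
    nInjF α β = (Fintype.card β).descFactorial (Fintype.card α) := by
  classical
  unfold nInjF
  rw [← Fintype.card_subtype, ← Fintype.card_embedding_eq]
  exact Fintype.card_congr (Equiv.subtypeInjectiveEquivEmbedding α β)

theorem nInjF_ind (α β : Type) [Fintype α] [DecidableEq α] [Fintype β] :
    (nInjF α β : ℝ) = ∑ p : α → β, ind (Function.Injective p) := by
  classical
  unfold nInjF ind
  rw [Finset.card_filter]
  push_cast
  refine Finset.sum_congr rfl fun p _ => ?_
  by_cases hp : Function.Injective p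
  · rw [if_pos hp, if_pos hp]
  · rw [if_neg hp, if_neg hp]

theorem desc_ge (a b : ℕ) (hb : 0 < b) (hab : a ≤ b) :
    (b : ℝ) ^ a * (1 - a / b) ^ a ≤ (b.descFactorial a : ℝ) := by
  have h1 : (b - a) ^ a ≤ b.descFactorial a :=
    (Nat.pow_le_pow_left (by omega) a).trans (Nat.pow_sub_le_descFactorial b a)
  have h2 : ((b - a : ℕ) : ℝ) = b * (1 - a / b) := by
    have : (b : ℝ) ≠ 0 := by exact_mod_cast hb.ne'
    rw [Nat.cast_sub hab]
    field_simp
  rw [← mul_pow, ← h2]
  exact_mod_cast h1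

/-! ### Moments -/

section moment

variable {TT Q : Type} [Fintype TT] [Fintype Q] [DecidableEq Q] [Nonempty TT]

theorem sum_inj_prod (f : TT → ℝ) (k : ℕ) (p : Fin k → Q) (hp : Function.Injective p) :
    ∑ D : Q → TT, ∏ t, f (D (p t)) =
      (Fintype.card TT : ℝ) ^ Fintype.card Q * ((∑ τ, f τ) / Fintype.card TT) ^ k := by
  classical
  have hTT : (Fintype.card TT : ℝ) ≠ 0 := by
    exact_mod_cast Fintype.card_ne_zero
  set R : Finset Q := univ.map ⟨p, hp⟩ with hR
  have hRc : R.card = k := by rw [hR, card_map, card_univ, Fintype.card_fin]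
  have h1 : ∀ D : Q → TT, ∏ t, f (D (p t)) = ∏ q, if q ∈ R then f (D q) else 1 := by
    intro D
    rw [Finset.prod_ite_mem, Finset.univ_inter, hR, Finset.prod_map]
    rfl
  rw [Finset.sum_congr rfl fun D _ => h1 D,
    sum_prod_pi (fun q τ => if q ∈ R then f τ else 1)]
  have h2 : ∀ q, ∑ τ : TT, (if q ∈ R then f τ else 1) =
      if q ∈ R then ∑ τ, f τ else (Fintype.card TT : ℝ) := by
    intro q
    split_ifs
    · rfl
    · rw [Finset.sum_const, card_univ, nsmul_eq_mul, mul_one]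
  rw [Finset.prod_congr rfl fun q _ => h2 q, prod_ite_pow R _ _ hTT, hRc]

theorem moment (f : TT → ℝ) (h0 : ∀ τ, 0 ≤ f τ) (h1 : ∀ τ, f τ ≤ 1) (k : ℕ) (ν : ℝ)
    (hν0 : 0 ≤ ν) (hν : (∑ τ, f τ) / Fintype.card TT ≤ ν) :
    ∑ D : Q → TT, (∑ q, f (D q)) ^ k ≤ (Fintype.card TT : ℝ) ^ Fintype.card Q *
      ((Fintype.card Q : ℝ) ^ k * ν ^ k +
        ((Fintype.card Q : ℝ) ^ k - ((Fintype.card Q).descFactorial k : ℝ))) := by
  classical
  have hTT : (0 : ℝ) < Fintype.card TT := by exact_mod_cast Fintype.card_pos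
  have hexp : ∑ D : Q → TT, (∑ q, f (D q)) ^ k =
      ∑ p : Fin k → Q, ∑ D : Q → TT, ∏ t, f (D (p t)) := by
    rw [Finset.sum_comm]
    exact Finset.sum_congr rfl fun D _ => Fintype.sum_pow (fun q => f (D q)) k
  have hterm : ∀ p : Fin k → Q, ∑ D : Q → TT, ∏ t, f (D (p t)) ≤
      (Fintype.card TT : ℝ) ^ Fintype.card Q *
        (1 + (ν ^ k - 1) * ind (Function.Injective p)) := by
    intro p
    by_cases hp : Function.Injective p
    · have hi : ind (Function.Injective p) = 1 := if_pos hp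
      rw [sum_inj_prod f k p hp, hi]
      refine mul_le_mul_of_nonneg_left ?_ (by positivity)
      have := pow_le_pow_left₀ (div_nonneg (Finset.sum_nonneg fun τ _ => h0 τ) hTT.le) hν k
      linarith
    · have hi : ind (Function.Injective p) = 0 := if_neg hp
      rw [hi]
      calc ∑ D : Q → TT, ∏ t, f (D (p t)) ≤ ∑ _D : Q → TT, (1 : ℝ) :=
            Finset.sum_le_sum fun D _ => Finset.prod_le_one (fun t _ => h0 _) fun t _ => h1 _
        _ = _ := by
            rw [Finset.sum_const, card_univ, Fintype.card_fun]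
            simp
  have hcount : ∑ p : Fin k → Q, (1 + (ν ^ k - 1) * ind (Function.Injective p)) ≤
      (Fintype.card Q : ℝ) ^ k * ν ^ k +
        ((Fintype.card Q : ℝ) ^ k - ((Fintype.card Q).descFactorial k : ℝ)) := by
    rw [Finset.sum_add_distrib, ← Finset.mul_sum, ← nInjF_ind, nInjF_eq, Fintype.card_fin,
      Finset.sum_const, card_univ, Fintype.card_fun, Fintype.card_fin, nsmul_eq_mul, mul_one]
    push_cast
    have h4 : ((Fintype.card Q).descFactorial k : ℝ) ≤ (Fintype.card Q : ℝ) ^ k := by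
      exact_mod_cast Nat.descFactorial_le_pow _ _
    have h5 : 0 ≤ ν ^ k := pow_nonneg hν0 k
    nlinarith
  rw [hexp]
  calc ∑ p : Fin k → Q, ∑ D : Q → TT, ∏ t, f (D (p t))
      ≤ ∑ p : Fin k → Q, (Fintype.card TT : ℝ) ^ Fintype.card Q *
        (1 + (ν ^ k - 1) * ind (Function.Injective p)) := Finset.sum_le_sum fun p _ => hterm p
    _ = (Fintype.card TT : ℝ) ^ Fintype.card Q *
        ∑ p : Fin k → Q, (1 + (ν ^ k - 1) * ind (Function.Injective p)) := by
        rw [Finset.mul_sum]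
    _ ≤ _ := mul_le_mul_of_nonneg_left hcount (by positivity)

/-- the moment bound with numbers -/
theorem moment' (f : TT → ℝ) (h0 : ∀ τ, 0 ≤ f τ) (h1 : ∀ τ, f τ ≤ 1) (k : ℕ)
    (hν : (∑ τ, f τ) / Fintype.card TT ≤ 1 / 64) (hQ : k ^ 2 * 64 ^ k ≤ Fintype.card Q)
    (hk : 1 ≤ k) :
    ∑ D : Q → TT, (∑ q, f (D q)) ^ k ≤ (Fintype.card TT : ℝ) ^ Fintype.card Q *
      ((Fintype.card Q : ℝ) ^ k * (2 * (1 / 64) ^ k)) := by
  refine (moment f h0 h1 k (1 / 64) (by norm_num) hν).trans ?_
  refine mul_le_mul_of_nonneg_left ?_ (by positivity)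
  set P := Fintype.card Q with hP
  have h64 : 1 ≤ 64 ^ k := Nat.one_le_pow _ _ (by norm_num)
  have hkP : k ≤ P := by nlinarith
  have hP0 : 0 < P := lt_of_lt_of_le (by omega) hkP
  have hP0' : (0 : ℝ) < P := by exact_mod_cast hP0
  have h2 := desc_ge k P hP0 hkP
  have h3 : (1 : ℝ) - k * (k / P) ≤ (1 - k / P) ^ k := by
    have h4 : (-2 : ℝ) ≤ -(k / P) := by
      have : (k : ℝ) / P ≤ 1 := (div_le_one hP0').2 (by exact_mod_cast hkP)
      linarith
    have := one_add_mul_le_pow h4 k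
    have e1 : (1 : ℝ) + k * -(k / P) = 1 - k * (k / P) := by ring
    have e2 : (1 : ℝ) + -(k / P) = 1 - k / P := by ring
    rw [e1, e2] at this
    exact this
  have h5 : (k : ℝ) * (k / P) ≤ (1 / 64) ^ k := by
    have e1 : (k : ℝ) * (k / P) = k ^ 2 / P := by ring
    rw [e1, div_le_iff₀ hP0', div_pow, one_pow]
    have h6 : ((k : ℝ) ^ 2 * 64 ^ k) ≤ P := by exact_mod_cast hQ
    have h7 : (0 : ℝ) < 64 ^ k := by positivity
    rw [div_mul_eq_mul_div, one_mul, le_div_iff₀ h7]
    exact h6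
  have h8 : (P : ℝ) ^ k - (P.descFactorial k : ℝ) ≤ (P : ℝ) ^ k * (1 / 64) ^ k := by
    have h9 : (0 : ℝ) ≤ (P : ℝ) ^ k := by positivity
    nlinarith [mul_le_mul_of_nonneg_left h3 h9, mul_le_mul_of_nonneg_left h5 h9]
  linarith

end moment

/-! ### The mean of the weights -/

section mean

variable {m : ℕ} {X : Type} [Fintype X] [DecidableEq X]

/-- four places are split by `A` -/
def Gd4 (A : Finset X) (κ : Bool × Bool → X) : Prop :=
  ((∀ ρ, κ (false, ρ) ∈ A) ∧ ∀ ρ, κ (true, ρ) ∉ A) ∨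
    ((∀ ρ, κ (false, ρ) ∉ A) ∧ ∀ ρ, κ (true, ρ) ∈ A)

/-- the indicator functions of the pattern -/
def pt (A : Finset X) (b : Bool) (s : Bool × Bool) (x : X) : ℝ :=
  if s.1 = b then (if x ∈ A then 1 else 0) else (if x ∈ A then 0 else 1)

open Classical in
theorem w4_eq (A : Finset X) (κ : Bool × Bool → X) :
    (if Gd4 A κ then (5 / 7 : ℝ) else 1) =
      1 - 2 / 7 * (∏ s, pt A false s (κ s) + ∏ s, pt A true s (κ s)) := by
  have h : ∀ b : Bool, ∏ s, pt A b s (κ s) =
      pt A b (true, true) (κ (true, true)) * pt A b (true, false) (κ (true, false)) *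
        (pt A b (false, true) (κ (false, true)) * pt A b (false, false) (κ (false, false))) := by
    intro b
    rw [Fintype.prod_prod_type]
    simp only [Fintype.prod_bool]
  rw [h, h]
  unfold Gd4 pt
  simp only [Bool.forall_bool]
  by_cases h1 : κ (true, true) ∈ A <;> by_cases h2 : κ (true, false) ∈ A <;>
    by_cases h3 : κ (false, true) ∈ A <;> by_cases h4 : κ (false, false) ∈ A <;>
    simp [h1, h2, h3, h4] <;> norm_num

theorem sum_pt (A : Finset X) (b : Bool) :
    ∑ κ : Bool × Bool → X, ∏ s, pt A b s (κ s) =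
      (A.card : ℝ) ^ 2 * ((Fintype.card X : ℝ) - A.card) ^ 2 := by
  rw [sum_prod_pi (fun s x => pt A b s x), Fintype.prod_prod_type]
  have h1 : ∑ x, (if x ∈ A then (1 : ℝ) else 0) = A.card := by
    rw [Finset.sum_ite_mem, Finset.univ_inter, Finset.sum_const, nsmul_eq_mul, mul_one]
  have h2 : ∑ x, (if x ∈ A then (0 : ℝ) else 1) = (Fintype.card X : ℝ) - A.card := by
    have h3 : ∀ x, (if x ∈ A then (0 : ℝ) else 1) = 1 - if x ∈ A then (1 : ℝ) else 0 := by
      intro x
      split_ifs <;> norm_num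
    rw [Finset.sum_congr rfl fun x _ => h3 x, Finset.sum_sub_distrib, h1, Finset.sum_const,
      card_univ, nsmul_eq_mul, mul_one]
  have h4 : ∀ c ρ : Bool, ∑ x, pt A b (c, ρ) x =
      if c = b then (A.card : ℝ) else (Fintype.card X : ℝ) - A.card := by
    intro c ρ
    unfold pt
    by_cases hc : c = b
    · simp only [if_pos hc]
      exact h1
    · simp only [if_neg hc]
      exact h2
  simp only [Fintype.prod_bool, h4]
  cases b
  · simp
    ring
  · simp
    ring

theorem sum_w4 (A : Finset X) (h1 : Fintype.card X ≤ 3 * A.card)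
    (h2 : 3 * A.card ≤ 2 * Fintype.card X) :
    ∑ κ : Bool × Bool → X, (1 - 2 / 7 * (∏ s, pt A false s (κ s) + ∏ s, pt A true s (κ s))) ≤
      551 / 567 * (Fintype.card X : ℝ) ^ 4 := by
  rw [Finset.sum_sub_distrib, ← Finset.mul_sum, Finset.sum_add_distrib, sum_pt, sum_pt,
    Finset.sum_const, card_univ, Fintype.card_fun]
  have hc : Fintype.card (Bool × Bool) = 4 := rfl
  rw [hc]
  have h3 : (Fintype.card X : ℝ) ≤ 3 * A.card := by exact_mod_cast h1
  have h4 : 3 * (A.card : ℝ) ≤ 2 * Fintype.card X := by exact_mod_cast h2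
  have h8 : ((Fintype.card X ^ 4 : ℕ) : ℝ) = (Fintype.card X : ℝ) ^ 4 := by push_cast; rfl
  rw [nsmul_eq_mul, mul_one, h8]
  have hn0 : (0 : ℝ) ≤ Fintype.card X := by positivity
  generalize (A.card : ℝ) = a at *
  generalize (Fintype.card X : ℝ) = n at *
  have h5 : 2 / 9 * n ^ 2 ≤ a * (n - a) := by nlinarith
  have h6 : (2 / 9 * n ^ 2) ^ 2 ≤ (a * (n - a)) ^ 2 := pow_le_pow_left₀ (by positivity) h5 2
  nlinarith

open Classical in
theorem sum_wt (A : Finset X) (h1 : Fintype.card X ≤ 3 * A.card)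
    (h2 : 3 * A.card ≤ 2 * Fintype.card X) :
    ∑ τ : Sl m → X, wt A τ ≤ (551 / 567) ^ m * (Fintype.card (Sl m → X) : ℝ) := by
  let e : (Sl m → X) ≃ (Fin m → (Bool × Bool → X)) × (Bool → X) :=
    { toFun := fun τ => (fun l s => τ (.inl (l, s)), fun ρ => τ (.inr ρ))
      invFun := fun p => Sum.elim (fun q => p.1 q.1 q.2) p.2
      left_inv := fun τ => by
        funext σ
        rcases σ with ⟨l, s⟩ | ρ <;> rfl
      right_inv := fun p => by rfl }
  have h3 : ∑ τ : Sl m → X, wt A τ = ∑ p : (Fin m → (Bool × Bool → X)) × (Bool → X),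
      ∏ l, (1 - 2 / 7 * (∏ s, pt A false s (p.1 l s) + ∏ s, pt A true s (p.1 l s))) := by
    refine Fintype.sum_equiv e _ _ fun τ => ?_
    unfold wt
    refine Finset.prod_congr rfl fun l _ => ?_
    rw [← w4_eq]
    rfl
  have h4 : (Fintype.card (Sl m → X) : ℝ) = (Fintype.card X : ℝ) ^ 2 *
      ((Fintype.card X : ℝ) ^ 4) ^ m := by
    rw [Fintype.card_fun, card_Sl]
    push_cast
    rw [← pow_mul, ← pow_add]
    congr 1
    ring
  rw [h3, Fintype.sum_prod_type_right]
  simp only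
  rw [Finset.sum_const, card_univ, Fintype.card_fun, Fintype.card_bool,
    sum_prod_pi (fun _ (k : Bool × Bool → X) =>
      1 - 2 / 7 * (∏ s, pt A false s (k s) + ∏ s, pt A true s (k s))),
    Finset.prod_const, card_univ, Fintype.card_fin, h4]
  have h5 : (∑ k : Bool × Bool → X,
      (1 - 2 / 7 * (∏ s, pt A false s (k s) + ∏ s, pt A true s (k s)))) ^ m ≤
      (551 / 567 * (Fintype.card X : ℝ) ^ 4) ^ m := by
    refine pow_le_pow_left₀ ?_ (sum_w4 A h1 h2) m
    refine Finset.sum_nonneg fun κ _ => ?_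
    rw [← w4_eq]
    split_ifs <;> norm_num
  rw [mul_pow] at h5
  rw [nsmul_eq_mul]
  push_cast
  calc (Fintype.card X : ℝ) ^ 2 * _ ≤ (Fintype.card X : ℝ) ^ 2 *
        ((551 / 567) ^ m * ((Fintype.card X : ℝ) ^ 4) ^ m) :=
        mul_le_mul_of_nonneg_left h5 (by positivity)
    _ = _ := by ring

end mean

end Pool.Agent.L5helper60.DN
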