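import Mathlib

/-!
# Discrepancy of a sum of products of bits, some of whose factors are seen by different players
-/

set_option autoImplicit false
set_option linter.unusedSectionVars false

open Finset

namespace Pool.Agent.L5helper60.DN

/-- the sign of a bit -/
def sg (b : Bool) : ℝ := if b then -1 else 1

theorem sg_xor (a b : Bool) : sg (xor a b) = sg a * sg b := by cases a <;> cases b <;> simp [sg]

theorem sg_sq (a : Bool) : sg a * sg a = 1 := by cases a <;> simp [sg]

theorem abs_sg (a : Bool) : |sg a| = 1 := by cases a <;> simp [sg]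

theorem sg_and_xor (a s b t : Bool) :
    sg (xor a s && xor b t) = sg (a && b) * (sg (s && b) * sg (a && t) * sg (s && t)) := by
  cases a <;> cases s <;> cases b <;> cases t <;> simp [sg]

theorem sum_prod_pi {P κ : Type} [Fintype P] [DecidableEq P] [Fintype κ] (f : P → κ → ℝ) :
    ∑ x : P → κ, ∏ p, f p (x p) = ∏ p, ∑ k, f p k := by
  rw [Finset.prod_univ_sum, Fintype.piFinset_univ]

theorem prod_le_one_abs {P : Type} [Fintype P] (f : P → ℝ) (h : ∀ p, |f p| = 1) :
    |∏ p, f p| = 1 := by
  rw [Finset.abs_prod]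
  exact Finset.prod_eq_one fun p _ => h p

variable {P : Type} [Fintype P] [DecidableEq P]

/-- the sign of the products at the places of `D` -/
noncomputable def sgD (D : Finset P) (s t : P → Bool) : ℝ :=
  ∏ p, if p ∈ D then sg (s p && t p) else 1

theorem abs_sgD (D : Finset P) (s t : P → Bool) : |sgD D s t| = 1 := by
  unfold sgD
  apply prod_le_one_abs
  intro p
  split_ifs
  · exact abs_sg _
  · simp

/-- the matrix entry of the square of the sign matrix -/
theorem local_sum (D : Finset P) (p : P) (a b : Bool) :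
    ∑ s : Bool, (if p ∈ D then sg (s && a) else 1) * (if p ∈ D then sg (s && b) else 1) =
      if p ∈ D then (if a = b then 2 else 0) else 2 := by
  rw [Fintype.sum_bool]
  by_cases h : p ∈ D
  · simp only [if_pos h]
    cases a <;> cases b <;> simp [sg] <;> norm_num
  · simp only [if_neg h]
    norm_num

theorem local_row (D : Finset P) (p : P) (a : Bool) :
    ∑ b : Bool, (if p ∈ D then (if a = b then (2 : ℝ) else 0) else 2) =
      if p ∈ D then 2 else 4 := by
  rw [Fintype.sum_bool]
  by_cases h : p ∈ D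
  · simp only [if_pos h]
    cases a <;> simp
  · simp only [if_neg h]
    norm_num

theorem prod_ite_pow (D : Finset P) (x y : ℝ) (hy : y ≠ 0) :
    ∏ p : P, (if p ∈ D then x else y) = y ^ Fintype.card P * (x / y) ^ D.card := by
  have h : ∀ p : P, (if p ∈ D then x else y) = y * (if p ∈ D then x / y else 1) := by
    intro p
    split_ifs
    · field_simp
    · ring
  rw [Finset.prod_congr rfl fun p _ => h p, Finset.prod_mul_distrib, Finset.prod_const,
    card_univ, Finset.prod_ite_mem, Finset.univ_inter, Finset.prod_const]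

theorem sum_sq_rows (D : Finset P) (W : (P → Bool) → ℝ) (hW : ∀ t, |W t| ≤ 1) :
    ∑ s, (∑ t, sgD D s t * W t) ^ 2 ≤ 8 ^ Fintype.card P * (1 / 2) ^ D.card := by
  have h1 : ∑ s, (∑ t, sgD D s t * W t) ^ 2 =
      ∑ t, ∑ t', (W t * W t') * ∑ s, sgD D s t * sgD D s t' := by
    have : ∀ s, (∑ t, sgD D s t * W t) ^ 2 =
        ∑ t, ∑ t', (W t * W t') * (sgD D s t * sgD D s t') := by
      intro s
      rw [sq, Finset.sum_mul_sum]
      exact Finset.sum_congr rfl fun t _ => Finset.sum_congr rfl fun t' _ => by ring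
    rw [Finset.sum_congr rfl fun s _ => this s, Finset.sum_comm]
    refine Finset.sum_congr rfl fun t _ => ?_
    rw [Finset.sum_comm]
    exact Finset.sum_congr rfl fun t' _ => by rw [Finset.mul_sum]
  have h2 : ∀ t t' : P → Bool, ∑ s, sgD D s t * sgD D s t' =
      ∏ p, (if p ∈ D then (if t p = t' p then (2 : ℝ) else 0) else 2) := by
    intro t t'
    have : ∀ s, sgD D s t * sgD D s t' =
        ∏ p, (if p ∈ D then sg (s p && t p) else 1) * (if p ∈ D then sg (s p && t' p) else 1) := by
      intro s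
      unfold sgD
      rw [Finset.prod_mul_distrib]
    rw [Finset.sum_congr rfl fun s _ => this s,
      sum_prod_pi (fun p k => (if p ∈ D then sg (k && t p) else 1) *
        (if p ∈ D then sg (k && t' p) else 1))]
    exact Finset.prod_congr rfl fun p _ => local_sum D p _ _
  have h3 : ∀ t : P → Bool, ∑ t' : P → Bool, ∏ p, (if p ∈ D then (if t p = t' p then (2 : ℝ) else 0) else 2) =
      ∏ p : P, (if p ∈ D then (2 : ℝ) else 4) := by
    intro t
    rw [sum_prod_pi (fun p k => if p ∈ D then (if t p = k then (2 : ℝ) else 0) else 2)]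
    exact Finset.prod_congr rfl fun p _ => local_row D p _
  have h4 : ∀ t t' : P → Bool, (0 : ℝ) ≤ ∏ p, (if p ∈ D then (if t p = t' p then (2 : ℝ) else 0) else 2) := by
    intro t t'
    refine Finset.prod_nonneg fun p _ => ?_
    split_ifs <;> norm_num
  rw [h1]
  calc ∑ t, ∑ t', (W t * W t') * ∑ s, sgD D s t * sgD D s t'
      ≤ ∑ t : P → Bool, ∑ t' : P → Bool,
          ∏ p, (if p ∈ D then (if t p = t' p then (2 : ℝ) else 0) else 2) := by
        refine Finset.sum_le_sum fun t _ => Finset.sum_le_sum fun t' _ => ?_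
        rw [h2]
        have h5 : W t * W t' ≤ 1 := by
          calc W t * W t' ≤ |W t * W t'| := le_abs_self _
            _ = |W t| * |W t'| := abs_mul _ _
            _ ≤ 1 * 1 := mul_le_mul (hW t) (hW t') (abs_nonneg _) zero_le_one
            _ = 1 := one_mul 1
        calc _ ≤ 1 * ∏ p, (if p ∈ D then (if t p = t' p then (2 : ℝ) else 0) else 2) :=
              mul_le_mul_of_nonneg_right h5 (h4 t t')
          _ = _ := one_mul _
    _ = ∑ _t : P → Bool, ∏ p : P, (if p ∈ D then (2 : ℝ) else 4) :=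
        Finset.sum_congr rfl fun t _ => h3 t
    _ = 2 ^ Fintype.card P * (4 ^ Fintype.card P * (1 / 2) ^ D.card) := by
        rw [Finset.sum_const, card_univ, Fintype.card_fun, Fintype.card_bool,
          prod_ite_pow D 2 4 (by norm_num), nsmul_eq_mul]
        norm_num
    _ = 8 ^ Fintype.card P * (1 / 2) ^ D.card := by
        rw [← mul_assoc, ← mul_pow]
        norm_num

theorem le_of_sq_half {x : ℝ} {N d : ℕ} (h : x ^ 2 ≤ 16 ^ N * (1 / 2) ^ d) :
    |x| ≤ 4 ^ N * (5 / 7) ^ d := by
  apply abs_le_of_sq_le_sq _ (by positivity)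
  refine h.trans ?_
  have h1 : ((4 : ℝ) ^ N * (5 / 7) ^ d) ^ 2 = 16 ^ N * (25 / 49) ^ d := by
    rw [mul_pow, ← pow_mul, ← pow_mul, mul_comm N 2, mul_comm d 2, pow_mul, pow_mul]
    norm_num
  rw [h1]
  exact mul_le_mul_of_nonneg_left (pow_le_pow_left₀ (by norm_num) (by norm_num) d) (by positivity)

/-- Lindsey's lemma, with idle places -/
theorem lindsey (D : Finset P) (U W : (P → Bool) → ℝ) (hU : ∀ s, |U s| ≤ 1)
    (hW : ∀ t, |W t| ≤ 1) :
    |∑ s, ∑ t, sgD D s t * (U s * W t)| ≤ 4 ^ Fintype.card P * (5 / 7) ^ D.card := by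
  apply le_of_sq_half
  have h1 : ∑ s, ∑ t, sgD D s t * (U s * W t) = ∑ s, U s * ∑ t, sgD D s t * W t := by
    refine Finset.sum_congr rfl fun s _ => ?_
    rw [Finset.mul_sum]
    exact Finset.sum_congr rfl fun t _ => by ring
  rw [h1]
  refine (Finset.sum_mul_sq_le_sq_mul_sq _ _ _).trans ?_
  have h2 : ∑ s, U s ^ 2 ≤ 2 ^ Fintype.card P := by
    calc ∑ s, U s ^ 2 ≤ ∑ _s : P → Bool, (1 : ℝ) := by
          refine Finset.sum_le_sum fun s _ => ?_
          rw [← sq_abs]
          exact pow_le_one₀ (abs_nonneg _) (hU s)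
      _ = 2 ^ Fintype.card P := by
          rw [Finset.sum_const, card_univ, Fintype.card_fun, Fintype.card_bool]
          simp
  calc (∑ s, U s ^ 2) * ∑ s, (∑ t, sgD D s t * W t) ^ 2
      ≤ 2 ^ Fintype.card P * (8 ^ Fintype.card P * (1 / 2) ^ D.card) :=
        mul_le_mul h2 (sum_sq_rows D W hW) (Finset.sum_nonneg fun s _ => sq_nonneg _)
          (by positivity)
    _ = 16 ^ Fintype.card P * (1 / 2) ^ D.card := by
        rw [← mul_assoc, ← mul_pow]
        norm_num

/-- change the bits at the places of `D` -/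
def xs (D : Finset P) (s α : P → Bool) : P → Bool := fun p =>
  if p ∈ D then xor (α p) (s p) else α p

theorem xs_xs (D : Finset P) (s α : P → Bool) : xs D s (xs D s α) = α := by
  funext p
  unfold xs
  split_ifs
  · cases α p <;> cases s p <;> rfl
  · rfl

theorem sum_xs (D : Finset P) (s : P → Bool) (F : (P → Bool) → ℝ) :
    ∑ α, F (xs D s α) = ∑ α, F α :=
  Fintype.sum_equiv (Function.Involutive.toPerm (xs D s) (xs_xs D s)) _ _ fun _ => rfl

theorem sg_xs (D : Finset P) (s t α β : P → Bool) :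
    ∏ p, sg (xs D s α p && xs D t β p) =
      (∏ p, sg (α p && β p)) * (sgD D s β * sgD D α t * sgD D s t) := by
  unfold sgD
  rw [← Finset.prod_mul_distrib, ← Finset.prod_mul_distrib, ← Finset.prod_mul_distrib]
  refine Finset.prod_congr rfl fun p _ => ?_
  unfold xs
  split_ifs
  · exact sg_and_xor _ _ _ _
  · ring

/-- **the discrepancy bound**: `u` does not see the bits `β p`, `v` does not see the bits `α p` for the
places `p` of `D` -/
theorem disc (D : Finset P) (u v : (P → Bool) → (P → Bool) → ℝ) (hu : ∀ α β, |u α β| ≤ 1)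
    (hv : ∀ α β, |v α β| ≤ 1)
    (hu' : ∀ α β β', (∀ p, p ∉ D → β p = β' p) → u α β = u α β')
    (hv' : ∀ α α' β, (∀ p, p ∉ D → α p = α' p) → v α β = v α' β) :
    |∑ α, ∑ β, (∏ p, sg (α p && β p)) * (u α β * v α β)| ≤
      4 ^ Fintype.card P * (5 / 7) ^ D.card := by
  set F : (P → Bool) → (P → Bool) → ℝ := fun α β =>
    (∏ p, sg (α p && β p)) * (u α β * v α β) with hF
  have h1 : ∀ s t : P → Bool, ∑ α, ∑ β, F (xs D s α) (xs D t β) = ∑ α, ∑ β, F α β := by
    intro s t
    rw [sum_xs D s (fun α => ∑ β, F α (xs D t β))]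
    exact Finset.sum_congr rfl fun α _ => sum_xs D t (F α)
  have hcard : ∑ _s : P → Bool, ∑ _t : P → Bool, (1 : ℝ) = 4 ^ Fintype.card P := by
    rw [Finset.sum_const, Finset.sum_const, card_univ, Fintype.card_fun, Fintype.card_bool]
    simp only [nsmul_eq_mul, Nat.cast_pow, Nat.cast_ofNat, mul_one]
    rw [← mul_pow]
    norm_num
  have h2 : 4 ^ Fintype.card P * ∑ α, ∑ β, F α β =
      ∑ α, ∑ β, ∑ s, ∑ t, F (xs D s α) (xs D t β) := by
    calc 4 ^ Fintype.card P * ∑ α, ∑ β, F α β
        = ∑ s : P → Bool, ∑ t : P → Bool, ∑ α, ∑ β, F α β := by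
          rw [← hcard, Finset.sum_mul]
          refine Finset.sum_congr rfl fun s _ => ?_
          rw [Finset.sum_mul]
          exact Finset.sum_congr rfl fun t _ => by rw [one_mul]
      _ = ∑ s : P → Bool, ∑ t : P → Bool, ∑ α, ∑ β, F (xs D s α) (xs D t β) :=
          Finset.sum_congr rfl fun s _ => Finset.sum_congr rfl fun t _ => (h1 s t).symm
      _ = ∑ s : P → Bool, ∑ α, ∑ β, ∑ t : P → Bool, F (xs D s α) (xs D t β) := by
          refine Finset.sum_congr rfl fun s _ => ?_
          rw [Finset.sum_comm]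
          exact Finset.sum_congr rfl fun α _ => Finset.sum_comm
      _ = _ := by
          rw [Finset.sum_comm]
          exact Finset.sum_congr rfl fun α _ => Finset.sum_comm
  have h3 : ∀ α β, |∑ s, ∑ t, F (xs D s α) (xs D t β)| ≤
      4 ^ Fintype.card P * (5 / 7) ^ D.card := by
    intro α β
    have h4 : ∀ s t, F (xs D s α) (xs D t β) = (∏ p, sg (α p && β p)) *
        (sgD D s t * ((sgD D s β * u (xs D s α) β) * (sgD D α t * v α (xs D t β)))) := by
      intro s t
      simp only [hF]
      rw [sg_xs, hu' (xs D s α) (xs D t β) β (fun p hp => by unfold xs; rw [if_neg hp]),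
        hv' (xs D s α) α (xs D t β) (fun p hp => by unfold xs; rw [if_neg hp])]
      ring
    have h5 : ∑ s, ∑ t, F (xs D s α) (xs D t β) = (∏ p, sg (α p && β p)) *
        ∑ s, ∑ t, sgD D s t * ((sgD D s β * u (xs D s α) β) * (sgD D α t * v α (xs D t β))) := by
      rw [Finset.mul_sum]
      refine Finset.sum_congr rfl fun s _ => ?_
      rw [Finset.mul_sum]
      exact Finset.sum_congr rfl fun t _ => h4 s t
    rw [h5, abs_mul, prod_le_one_abs _ fun p => abs_sg _, one_mul]
    refine lindsey D _ _ (fun s => ?_) (fun t => ?_)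
    · rw [abs_mul, abs_sgD, one_mul]
      exact hu _ _
    · rw [abs_mul, abs_sgD, one_mul]
      exact hv _ _
  have h6 : |4 ^ Fintype.card P * ∑ α, ∑ β, F α β| ≤
      4 ^ Fintype.card P * (4 ^ Fintype.card P * (5 / 7) ^ D.card) := by
    rw [h2]
    calc |∑ α, ∑ β, ∑ s, ∑ t, F (xs D s α) (xs D t β)|
        ≤ ∑ α, ∑ β, |∑ s, ∑ t, F (xs D s α) (xs D t β)| :=
          (Finset.abs_sum_le_sum_abs _ _).trans
            (Finset.sum_le_sum fun α _ => Finset.abs_sum_le_sum_abs _ _)
      _ ≤ ∑ _α : P → Bool, ∑ _β : P → Bool, 4 ^ Fintype.card P * (5 / 7 : ℝ) ^ D.card :=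
          Finset.sum_le_sum fun α _ => Finset.sum_le_sum fun β _ => h3 α β
      _ = (∑ _α : P → Bool, ∑ _β : P → Bool, (1 : ℝ)) *
            (4 ^ Fintype.card P * (5 / 7 : ℝ) ^ D.card) := by
          rw [Finset.sum_mul]
          refine Finset.sum_congr rfl fun s _ => ?_
          rw [Finset.sum_mul]
          exact Finset.sum_congr rfl fun t _ => by rw [one_mul]
      _ = _ := by rw [hcard]
  rw [abs_mul, abs_of_pos (by positivity : (0 : ℝ) < 4 ^ Fintype.card P)] at h6
  exact le_of_mul_le_mul_left h6 (by positivity)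

/-- exchange the bits at some places -/
def sw (ρ : P → Bool) (q : (P → Bool) × (P → Bool)) : (P → Bool) × (P → Bool) :=
  (fun p => if ρ p then q.2 p else q.1 p, fun p => if ρ p then q.1 p else q.2 p)

theorem sw_sw (ρ : P → Bool) (q : (P → Bool) × (P → Bool)) : sw ρ (sw ρ q) = q := by
  ext p
  · unfold sw
    simp only
    split_ifs <;> rfl
  · unfold sw
    simp only
    split_ifs <;> rfl

/-- the discrepancy bound with orientations: at a place of `D` with `ρ p = false` the function `u`
does not see `β p` and `v` does not see `α p`; if `ρ p = true` it is the other way round -/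
theorem disc_or (D : Finset P) (ρ : P → Bool) (u v : (P → Bool) → (P → Bool) → ℝ)
    (hu : ∀ α β, |u α β| ≤ 1) (hv : ∀ α β, |v α β| ≤ 1)
    (hu' : ∀ α β α' β', (∀ p, p ∉ D ∨ ρ p = false → α p = α' p) →
      (∀ p, p ∉ D ∨ ρ p = true → β p = β' p) → u α β = u α' β')
    (hv' : ∀ α β α' β', (∀ p, p ∉ D ∨ ρ p = true → α p = α' p) →
      (∀ p, p ∉ D ∨ ρ p = false → β p = β' p) → v α β = v α' β') :
    |∑ α, ∑ β, (∏ p, sg (α p && β p)) * (u α β * v α β)| ≤
      4 ^ Fintype.card P * (5 / 7) ^ D.card := by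
  have h1 : ∑ α, ∑ β, (∏ p, sg (α p && β p)) * (u α β * v α β) =
      ∑ α, ∑ β, (∏ p, sg (α p && β p)) *
        (u (sw ρ (α, β)).1 (sw ρ (α, β)).2 * v (sw ρ (α, β)).1 (sw ρ (α, β)).2) := by
    rw [← Fintype.sum_prod_type'
        (f := fun α β => (∏ p, sg (α p && β p)) * (u α β * v α β)),
      ← Fintype.sum_prod_type' (f := fun α β => (∏ p, sg (α p && β p)) *
        (u (sw ρ (α, β)).1 (sw ρ (α, β)).2 * v (sw ρ (α, β)).1 (sw ρ (α, β)).2))]
    refine (Fintype.sum_equiv (Function.Involutive.toPerm (sw ρ) (sw_sw ρ)) _ _ fun q => ?_).symm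
    show (∏ p, sg (q.1 p && q.2 p)) * _ = (∏ p, sg ((sw ρ q).1 p && (sw ρ q).2 p)) * _
    have : (∏ p, sg (q.1 p && q.2 p)) = ∏ p, sg ((sw ρ q).1 p && (sw ρ q).2 p) := by
      refine Finset.prod_congr rfl fun p _ => ?_
      unfold sw
      simp only
      split_ifs
      · rw [Bool.and_comm]
      · rfl
    rw [this]
    rfl
  rw [h1]
  refine disc D (fun α β => u (sw ρ (α, β)).1 (sw ρ (α, β)).2)
    (fun α β => v (sw ρ (α, β)).1 (sw ρ (α, β)).2) (fun _ _ => hu _ _) (fun _ _ => hv _ _) ?_ ?_
  · intro α β β' h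
    refine hu' _ _ _ _ (fun p hp => ?_) (fun p hp => ?_)
    · unfold sw
      simp only
      rcases hp with hp | hp
      · split_ifs
        · exact h p hp
        · rfl
      · rw [if_neg (by rw [hp]; simp), if_neg (by rw [hp]; simp)]
    · unfold sw
      simp only
      rcases hp with hp | hp
      · split_ifs
        · rfl
        · exact h p hp
      · rw [if_pos hp, if_pos hp]
  · intro α α' β h
    refine hv' _ _ _ _ (fun p hp => ?_) (fun p hp => ?_)
    · unfold sw
      simp only
      rcases hp with hp | hp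
      · split_ifs
        · rfl
        · exact h p hp
      · rw [if_pos hp, if_pos hp]
    · unfold sw
      simp only
      rcases hp with hp | hp
      · split_ifs
        · exact h p hp
        · rfl
      · rw [if_neg (by rw [hp]; simp), if_neg (by rw [hp]; simp)]

end Pool.Agent.L5helper60.DN
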