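import Pool.Agent.L5helper60.DN.Des

/-!
# Existence of a good design
-/

set_option autoImplicit false
set_option linter.unusedSectionVars false

open Finset

namespace Pool.Agent.L5helper60.DN

instance instFintypeTup {m : ℕ} {X : Type} [Fintype X] : Fintype (Sl m → X) := Pi.instFintype

section swap

variable {L Q TT : Type} [Fintype L] [DecidableEq L] [Fintype Q] [DecidableEq Q] [Fintype TT]

/-- exchange the chosen tuples -/
def swp (c : L → Q) (p : (L → Q → TT) × (L → TT)) : (L → Q → TT) × (L → TT) :=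
  (fun i q => if q = c i then p.2 i else p.1 i q, fun i => p.1 i (c i))

theorem swp_swp (c : L → Q) (p : (L → Q → TT) × (L → TT)) : swp c (swp c p) = p := by
  ext i q
  · unfold swp
    simp only
    split_ifs with h
    · rw [h]
    · rfl
  · unfold swp
    simp

theorem sum_restrict (φ : (L → TT) → ℝ) (c : L → Q) :
    (Fintype.card (L → TT) : ℝ) * ∑ D : L → Q → TT, φ (fun i => D i (c i)) =
      Fintype.card (L → Q → TT) * ∑ E, φ E := by
  have h1 : ∑ p : (L → Q → TT) × (L → TT), φ p.2 =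
      ∑ p : (L → Q → TT) × (L → TT), φ (swp c p).2 :=
    (Fintype.sum_equiv (Function.Involutive.toPerm (swp c) (swp_swp c))
      (fun p => φ (swp c p).2) (fun p => φ p.2) fun p => rfl).symm
  have h2 : ∑ p : (L → Q → TT) × (L → TT), φ p.2 =
      Fintype.card (L → Q → TT) * ∑ E, φ E := by
    rw [Fintype.sum_prod_type]
    show ∑ _D : L → Q → TT, ∑ E : L → TT, φ E = _
    rw [Finset.sum_const, card_univ, nsmul_eq_mul]
  have h3 : ∑ p : (L → Q → TT) × (L → TT), φ (swp c p).2 =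
      (Fintype.card (L → TT) : ℝ) * ∑ D : L → Q → TT, φ (fun i => D i (c i)) := by
    rw [Fintype.sum_prod_type, Finset.mul_sum]
    refine Finset.sum_congr rfl fun D _ => ?_
    show ∑ _E : L → TT, φ (fun i => D i (c i)) = _
    rw [Finset.sum_const, card_univ, nsmul_eq_mul]
  rw [← h2, h1, h3]

end swap

section inj

variable {m : ℕ} {L Q X : Type} [Fintype L] [DecidableEq L] [Fintype Q] [DecidableEq Q] [Fintype X]
  [DecidableEq X]

theorem nInj_eq (T : L → Q → Sl m → X) : (nInj T : ℝ) = ∑ c : L → Q, ind (Inj T c) := by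
  classical
  unfold nInj ind
  rw [Finset.card_filter]
  push_cast
  refine Finset.sum_congr rfl fun p _ => ?_
  by_cases hp : Inj T p
  · simp [hp]
  · simp [hp]

theorem nInj_le (T : L → Q → Sl m → X) :
    (nInj T : ℝ) ≤ (Fintype.card Q : ℝ) ^ Fintype.card L := by
  classical
  have : nInj T ≤ (Fintype.card Q) ^ Fintype.card L := by
    unfold nInj
    refine (Finset.card_filter_le _ _).trans ?_
    rw [card_univ, Fintype.card_fun]
  exact_mod_cast this

theorem sum_nInj : (Fintype.card (L → Sl m → X) : ℝ) * ∑ D : L → Q → Sl m → X, (nInj D : ℝ) =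
    (Fintype.card Q : ℝ) ^ Fintype.card L *
      (Fintype.card (L → Q → Sl m → X) * (nInjF (L × Sl m) X : ℝ)) := by
  classical
  have h1 : ∑ D : L → Q → Sl m → X, (nInj D : ℝ) =
      ∑ c : L → Q, ∑ D : L → Q → Sl m → X, ind (Inj D c) := by
    rw [Finset.sum_comm]
    exact Finset.sum_congr rfl fun D _ => nInj_eq D
  let φ : (L → Sl m → X) → ℝ := fun E =>
    ind (Function.Injective fun p : L × Sl m => E p.1 p.2)
  have h2 : ∀ c : L → Q, (Fintype.card (L → Sl m → X) : ℝ) *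
      ∑ D : L → Q → Sl m → X, ind (Inj D c) =
      Fintype.card (L → Q → Sl m → X) * ∑ E, φ E := fun c =>
    sum_restrict φ c
  have h3 : ∑ E, φ E = (nInjF (L × Sl m) X : ℝ) := by
    rw [nInjF_ind]
    exact Fintype.sum_equiv (Equiv.curry L (Sl m) X).symm _ _ fun E => rfl
  rw [h1, Finset.mul_sum, Finset.sum_congr rfl fun c _ => h2 c, Finset.sum_const, card_univ,
    Fintype.card_fun, h3, nsmul_eq_mul]
  push_cast
  ring

/-- a constant proportion (per leaf) of the families of tuples has no overlap -/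
theorem inj_ratio (m C1 : ℕ) (hC : 2 * (4 * m + 2) ^ 2 ≤ C1) [Nonempty L] :
    (1 / 2 : ℝ) ^ Fintype.card L * (Fintype.card (L → Sl m → L × Fin C1) : ℝ) ≤
      (nInjF (L × Sl m) (L × Fin C1) : ℝ) := by
  classical
  set K := 4 * m + 2 with hK
  have hK0 : 0 < K := by omega
  have hKC : K ≤ C1 := by nlinarith
  have hC0 : 0 < C1 := by omega
  have hL0 : 0 < Fintype.card L := Fintype.card_pos
  have hcard : Fintype.card (L × Sl m) = Fintype.card L * K := by
    rw [Fintype.card_prod, card_Sl]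
  have hcard' : Fintype.card (L × Fin C1) = Fintype.card L * C1 := by
    rw [Fintype.card_prod, Fintype.card_fin]
  rw [nInjF_eq, hcard, hcard']
  refine le_trans ?_ (desc_ge (Fintype.card L * K) (Fintype.card L * C1)
    (Nat.mul_pos hL0 hC0) (Nat.mul_le_mul_left _ hKC))
  have hL0' : (0 : ℝ) < Fintype.card L := by exact_mod_cast hL0
  have hC0' : (0 : ℝ) < C1 := by exact_mod_cast hC0
  have e1 : ((Fintype.card L * K : ℕ) : ℝ) / ((Fintype.card L * C1 : ℕ) : ℝ) = K / C1 := by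
    push_cast
    field_simp
  have e2 : (Fintype.card (L → Sl m → L × Fin C1) : ℝ) =
      ((Fintype.card L * C1 : ℕ) : ℝ) ^ (Fintype.card L * K) := by
    rw [Fintype.card_fun, Fintype.card_fun, card_Sl, hcard']
    push_cast
    rw [← pow_mul, mul_comm (Fintype.card L) K]
  rw [e1, e2, mul_comm]
  refine mul_le_mul_of_nonneg_left ?_ (by positivity)
  rw [mul_comm (Fintype.card L) K, pow_mul]
  refine pow_le_pow_left₀ (by norm_num) ?_ _
  have h1 : (K : ℝ) / C1 ≤ 1 := (div_le_one hC0').2 (by exact_mod_cast hKC)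
  have h2 := one_add_mul_le_pow (show (-2 : ℝ) ≤ -(K / C1) by linarith) K
  have h3 : (K : ℝ) * (K / C1) ≤ 1 / 2 := by
    have e3 : (K : ℝ) * (K / C1) = K ^ 2 / C1 := by ring
    rw [e3, div_le_iff₀ hC0']
    have : ((2 * K ^ 2 : ℕ) : ℝ) ≤ C1 := by exact_mod_cast hC
    push_cast at this
    linarith
  have e4 : (1 : ℝ) + -(K / C1) = 1 - K / C1 := by ring
  rw [e4] at h2
  linarith

end inj

theorem half_pow (n : ℕ) (hn : 1 ≤ n) : (1 / 4 : ℝ) ^ n + (1 / 8) ^ n < (1 / 2) ^ n := by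
  have h1 : (1 / 4 : ℝ) ^ n = (1 / 2) ^ n * (1 / 2) ^ n := by rw [← mul_pow]; norm_num
  have h2 : (1 / 8 : ℝ) ^ n = (1 / 2) ^ n * (1 / 4) ^ n := by rw [← mul_pow]; norm_num
  have h3 : (1 / 2 : ℝ) ^ n ≤ 1 / 2 := by
    calc (1 / 2 : ℝ) ^ n ≤ (1 / 2) ^ 1 := pow_le_pow_of_le_one (by norm_num) (by norm_num) hn
      _ = 1 / 2 := pow_one _
  have h4 : (1 / 4 : ℝ) ^ n ≤ 1 / 4 := by
    calc (1 / 4 : ℝ) ^ n ≤ (1 / 4) ^ 1 := pow_le_pow_of_le_one (by norm_num) (by norm_num) hn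
      _ = 1 / 4 := pow_one _
  have h5 : (0 : ℝ) < (1 / 2) ^ n := by positivity
  nlinarith

/-- **Existence of a design** with `P` tuples at each leaf: there are many choices without overlap, and
the weights are small for every balanced set. -/
theorem exists_design (m C1 P : ℕ) (hm : (551 / 567 : ℝ) ^ m ≤ 1 / 64)
    (hC : 2 * (4 * m + 2) ^ 2 ≤ C1) (hP : (C1 + 4) ^ 2 * 64 ^ (C1 + 4) ≤ P)
    (L : Type) [Fintype L] [DecidableEq L] [Nonempty L] :
    ∃ T : L → Fin P → Sl m → (L × Fin C1),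
      ((P : ℝ) / 4) ^ Fintype.card L ≤ (nInj T : ℝ) ∧
      ∀ A : Finset (L × Fin C1), Fintype.card (L × Fin C1) ≤ 3 * A.card →
        3 * A.card ≤ 2 * Fintype.card (L × Fin C1) →
        ∏ i, ∑ q, wt A (T i q) ≤ ((P : ℝ) / 16) ^ Fintype.card L := by
  classical
  by_contra hcon
  push Not at hcon
  set n0 := Fintype.card L with hn0
  have hn0' : 1 ≤ n0 := Fintype.card_pos
  have hC0 : 0 < C1 := by
    have : 0 < (4 * m + 2) ^ 2 := by positivity
    omega
  have : Nonempty (Fin C1) := ⟨⟨0, hC0⟩⟩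
  have hP0 : 0 < P := by
    have : 0 < (C1 + 4) ^ 2 * 64 ^ (C1 + 4) := by positivity
    omega
  have hP0' : (0 : ℝ) < P := by exact_mod_cast hP0
  set k := C1 + 4 with hk
  set Bal : Finset (Finset (L × Fin C1)) := univ.filter fun A =>
    Fintype.card (L × Fin C1) ≤ 3 * A.card ∧ 3 * A.card ≤ 2 * Fintype.card (L × Fin C1) with hBal
  set R : ℝ := (((P : ℝ) / 16) ^ n0) ^ k with hR
  have hR0 : 0 < R := by positivity
  have hW0 : ∀ (D : L → Fin P → Sl m → (L × Fin C1)) (A : Finset (L × Fin C1)),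
      0 ≤ ∏ i, ∑ q, wt A (D i q) := fun D A =>
    Finset.prod_nonneg fun i _ => Finset.sum_nonneg fun q _ => wt_nonneg _ _
  -- the pointwise bound
  have hpt : ∀ D : L → Fin P → Sl m → (L × Fin C1), R * (nInj D : ℝ) ≤
      R * ((P : ℝ) / 4) ^ n0 + (P : ℝ) ^ n0 * ∑ A ∈ Bal, (∏ i, ∑ q, wt A (D i q)) ^ k := by
    intro D
    have hsum0 : 0 ≤ ∑ A ∈ Bal, (∏ i, ∑ q, wt A (D i q)) ^ k :=
      Finset.sum_nonneg fun A _ => pow_nonneg (hW0 D A) k
    by_cases h1 : ((P : ℝ) / 4) ^ n0 ≤ (nInj D : ℝ)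
    · obtain ⟨A, a1, a2, a3⟩ := hcon D h1
      have h2 : (nInj D : ℝ) ≤ (P : ℝ) ^ n0 := by
        have := nInj_le D
        rwa [Fintype.card_fin] at this
      have h3 : R ≤ ∑ A ∈ Bal, (∏ i, ∑ q, wt A (D i q)) ^ k := by
        refine le_trans ?_ (Finset.single_le_sum (f := fun A => (∏ i, ∑ q, wt A (D i q)) ^ k)
          (fun A _ => pow_nonneg (hW0 D A) k) (mem_filter.2 ⟨mem_univ A, a1, a2⟩))
        exact pow_le_pow_left₀ (by positivity) a3.le k
      have h4 : R * (nInj D : ℝ) ≤ (P : ℝ) ^ n0 * ∑ A ∈ Bal, (∏ i, ∑ q, wt A (D i q)) ^ k := by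
        rw [mul_comm]
        exact mul_le_mul h2 h3 hR0.le (by positivity)
      have h5 : 0 ≤ R * ((P : ℝ) / 4) ^ n0 := by positivity
      linarith
    · push Not at h1
      have h4 : R * (nInj D : ℝ) ≤ R * ((P : ℝ) / 4) ^ n0 :=
        mul_le_mul_of_nonneg_left h1.le hR0.le
      have h5 : 0 ≤ (P : ℝ) ^ n0 * ∑ A ∈ Bal, (∏ i, ∑ q, wt A (D i q)) ^ k :=
        mul_nonneg (by positivity) hsum0
      linarith
  -- the moments
  set N : ℝ := (Fintype.card (L → Fin P → Sl m → L × Fin C1) : ℝ) with hN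
  have hN0 : 0 < N := by
    rw [hN]
    exact_mod_cast Fintype.card_pos
  have hmom : ∀ A ∈ Bal, ∑ D : L → Fin P → Sl m → (L × Fin C1),
      (∏ i, ∑ q, wt A (D i q)) ^ k ≤ N * ((P : ℝ) ^ k * (2 * (1 / 64) ^ k)) ^ n0 := by
    intro A hA
    obtain ⟨-, a1, a2⟩ := mem_filter.1 hA
    have h1 : ∀ D : L → Fin P → Sl m → (L × Fin C1), (∏ i, ∑ q, wt A (D i q)) ^ k =
        ∏ i, (∑ q, wt A (D i q)) ^ k := fun D => (Finset.prod_pow _ _ _).symm
    rw [Finset.sum_congr rfl fun D _ => h1 D,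
      sum_prod_pi (fun _ (E : Fin P → Sl m → (L × Fin C1)) => (∑ q, wt A (E q)) ^ k),
      Finset.prod_const, card_univ]
    have h2 : (∑ τ : Sl m → (L × Fin C1), wt A τ) / Fintype.card (Sl m → (L × Fin C1)) ≤
        1 / 64 := by
      have hpos : (0 : ℝ) < Fintype.card (Sl m → (L × Fin C1)) := by
        exact_mod_cast Fintype.card_pos
      rw [div_le_iff₀ hpos]
      exact (sum_wt A a1 a2).trans (mul_le_mul_of_nonneg_right hm hpos.le)
    have h3 := moment' (Q := Fin P) (fun τ : Sl m → (L × Fin C1) => wt A τ) (wt_nonneg A)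
      (wt_le_one A) k h2 (by rw [Fintype.card_fin]; exact hP) (by omega)
    rw [Fintype.card_fin] at h3
    have h4 : N = ((Fintype.card (Sl m → L × Fin C1) : ℝ) ^ P) ^ n0 := by
      rw [hN, Fintype.card_fun, Fintype.card_fun, Fintype.card_fin]
      push_cast
      rfl
    rw [h4, ← mul_pow]
    exact pow_le_pow_left₀ (Finset.sum_nonneg fun D _ => pow_nonneg
      (Finset.sum_nonneg fun q _ => wt_nonneg _ _) k) h3 n0
  have hBalc : (Bal.card : ℝ) ≤ ((2 : ℝ) ^ C1) ^ n0 := by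
    have h1 : Bal.card ≤ 2 ^ (n0 * C1) := by
      refine (card_filter_le _ _).trans ?_
      rw [card_univ, Fintype.card_finset, Fintype.card_prod, Fintype.card_fin]
    have h2 : (Bal.card : ℝ) ≤ ((2 ^ (n0 * C1) : ℕ) : ℝ) := by exact_mod_cast h1
    refine h2.trans (le_of_eq ?_)
    push_cast
    rw [← pow_mul, mul_comm]
  have hfac : (2 : ℝ) ^ C1 * ((P : ℝ) ^ k * (2 * (1 / 64) ^ k)) ≤ ((P : ℝ) / 16) ^ k * (1 / 8) := by
    have e1 : ((P : ℝ) / 16) ^ k = (P : ℝ) ^ k * (1 / 16) ^ k := by rw [← mul_pow]; congr 1; ring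
    have e2 : (1 / 64 : ℝ) ^ k = (1 / 16) ^ k * (1 / 4) ^ k := by rw [← mul_pow]; norm_num
    have e3 : (2 : ℝ) ^ C1 * (2 * (1 / 4) ^ k) ≤ 1 / 8 := by
      have e4 : (1 / 4 : ℝ) ^ k = (1 / 4) ^ C1 * (1 / 4) ^ 4 := by rw [hk, pow_add]
      have e5 : (2 : ℝ) ^ C1 * (1 / 4) ^ C1 ≤ 1 := by
        rw [← mul_pow]
        exact pow_le_one₀ (by norm_num) (by norm_num)
      rw [e4]
      nlinarith
    rw [e1, e2]
    have e6 : (0 : ℝ) ≤ (P : ℝ) ^ k * (1 / 16) ^ k := by positivity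
    calc (2 : ℝ) ^ C1 * ((P : ℝ) ^ k * (2 * ((1 / 16) ^ k * (1 / 4) ^ k)))
        = ((P : ℝ) ^ k * (1 / 16) ^ k) * ((2 : ℝ) ^ C1 * (2 * (1 / 4) ^ k)) := by ring
      _ ≤ ((P : ℝ) ^ k * (1 / 16) ^ k) * (1 / 8) := mul_le_mul_of_nonneg_left e3 e6
  have hsum : ∑ D : L → Fin P → Sl m → (L × Fin C1),
      ∑ A ∈ Bal, (∏ i, ∑ q, wt A (D i q)) ^ k ≤ N * (R * (1 / 8) ^ n0) := by
    rw [Finset.sum_comm]
    calc ∑ A ∈ Bal, ∑ D : L → Fin P → Sl m → (L × Fin C1), (∏ i, ∑ q, wt A (D i q)) ^ k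
        ≤ ∑ _A ∈ Bal, N * ((P : ℝ) ^ k * (2 * (1 / 64) ^ k)) ^ n0 :=
          Finset.sum_le_sum hmom
      _ = (Bal.card : ℝ) * (N * ((P : ℝ) ^ k * (2 * (1 / 64) ^ k)) ^ n0) := by
          rw [Finset.sum_const, nsmul_eq_mul]
      _ ≤ ((2 : ℝ) ^ C1) ^ n0 * (N * ((P : ℝ) ^ k * (2 * (1 / 64) ^ k)) ^ n0) :=
          mul_le_mul_of_nonneg_right hBalc (by positivity)
      _ = N * ((2 : ℝ) ^ C1 * ((P : ℝ) ^ k * (2 * (1 / 64) ^ k))) ^ n0 := by
          rw [mul_pow ((2 : ℝ) ^ C1)]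
          ring
      _ ≤ N * (((P : ℝ) / 16) ^ k * (1 / 8)) ^ n0 :=
          mul_le_mul_of_nonneg_left (pow_le_pow_left₀ (by positivity) hfac n0) hN0.le
      _ = N * (R * (1 / 8) ^ n0) := by
          rw [mul_pow, hR, ← pow_mul, ← pow_mul, mul_comm k n0]
  -- the mean number of choices without overlap
  have hmean : (P : ℝ) ^ n0 * (N * (1 / 2) ^ n0) ≤
      ∑ D : L → Fin P → Sl m → (L × Fin C1), (nInj D : ℝ) := by
    have h1 := sum_nInj (m := m) (L := L) (Q := Fin P) (X := L × Fin C1)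
    have h2 := inj_ratio (L := L) m C1 hC
    rw [Fintype.card_fin] at h1
    have h3 : (0 : ℝ) < Fintype.card (L → Sl m → L × Fin C1) := by
      exact_mod_cast Fintype.card_pos
    have h4 : (Fintype.card (L → Sl m → L × Fin C1) : ℝ) * ((P : ℝ) ^ n0 * (N * (1 / 2) ^ n0)) ≤
        (Fintype.card (L → Sl m → L × Fin C1) : ℝ) *
          ∑ D : L → Fin P → Sl m → (L × Fin C1), (nInj D : ℝ) := by
      rw [h1]
      calc (Fintype.card (L → Sl m → L × Fin C1) : ℝ) * ((P : ℝ) ^ n0 * (N * (1 / 2) ^ n0))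
          = (P : ℝ) ^ n0 * (N * ((1 / 2) ^ n0 *
            (Fintype.card (L → Sl m → L × Fin C1) : ℝ))) := by ring
        _ ≤ (P : ℝ) ^ n0 * (N * (nInjF (L × Sl m) (L × Fin C1) : ℝ)) :=
            mul_le_mul_of_nonneg_left (mul_le_mul_of_nonneg_left h2 hN0.le) (by positivity)
    exact le_of_mul_le_mul_left h4 h3
  -- summation
  have htot : R * ∑ D : L → Fin P → Sl m → (L × Fin C1), (nInj D : ℝ) ≤
      N * (R * ((P : ℝ) / 4) ^ n0) + (P : ℝ) ^ n0 * (N * (R * (1 / 8) ^ n0)) := by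
    calc R * ∑ D : L → Fin P → Sl m → (L × Fin C1), (nInj D : ℝ)
        = ∑ D : L → Fin P → Sl m → (L × Fin C1), R * (nInj D : ℝ) := by rw [Finset.mul_sum]
      _ ≤ ∑ D : L → Fin P → Sl m → (L × Fin C1), (R * ((P : ℝ) / 4) ^ n0 +
          (P : ℝ) ^ n0 * ∑ A ∈ Bal, (∏ i, ∑ q, wt A (D i q)) ^ k) :=
          Finset.sum_le_sum fun D _ => hpt D
      _ = N * (R * ((P : ℝ) / 4) ^ n0) + (P : ℝ) ^ n0 *
          ∑ D : L → Fin P → Sl m → (L × Fin C1), ∑ A ∈ Bal, (∏ i, ∑ q, wt A (D i q)) ^ k := by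
          rw [Finset.sum_add_distrib, Finset.sum_const, card_univ, nsmul_eq_mul,
            ← Finset.mul_sum]
      _ ≤ _ := by
          have := mul_le_mul_of_nonneg_left hsum (by positivity : (0 : ℝ) ≤ (P : ℝ) ^ n0)
          linarith
  have h1 : R * ((P : ℝ) ^ n0 * (N * (1 / 2) ^ n0)) ≤
      N * (R * ((P : ℝ) / 4) ^ n0) + (P : ℝ) ^ n0 * (N * (R * (1 / 8) ^ n0)) :=
    (mul_le_mul_of_nonneg_left hmean hR0.le).trans htot
  have h2 : ((P : ℝ) / 4) ^ n0 = (P : ℝ) ^ n0 * (1 / 4) ^ n0 := by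
    rw [← mul_pow]; congr 1; ring
  rw [h2] at h1
  have h3 : R * (P : ℝ) ^ n0 * N * (1 / 2) ^ n0 ≤
      R * (P : ℝ) ^ n0 * N * ((1 / 4) ^ n0 + (1 / 8) ^ n0) := by linarith
  have h4 : (0 : ℝ) < R * (P : ℝ) ^ n0 * N := by positivity
  have h5 := le_of_mul_le_mul_left h3 h4
  exact absurd (half_pow n0 hn0') (not_lt.2 h5)

end Pool.Agent.L5helper60.DN
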