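import Pool.Agent.L5helper60.DN.Exi

/-!
# The hypergraphs and the bounds
-/

set_option autoImplicit false
set_option linter.unusedSectionVars false

open Finset

namespace Pool.Agent.L5helper60.DN

open Pool.Agent.L5helper18.DD

theorem num_m : (551 / 567 : ℝ) ^ 150 ≤ 1 / 64 := by norm_num

/-- the lower bound for the good design -/
theorem size_ge (m C1 P : ℕ) (hm : (551 / 567 : ℝ) ^ m ≤ 1 / 64)
    (hC : 2 * (4 * m + 2) ^ 2 ≤ C1) (hP : (C1 + 4) ^ 2 * 64 ^ (C1 + 4) ≤ P) (j : ℕ) :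
    ∃ T : Lf j → Fin P → Sl m → (Lf j × Fin C1),
      ∀ (C : Circ ((Lf j × Fin C1) ⊕ Lf j × Fin P) (4 ^ j)) (o : Fin C.size),
        (∀ S, C.val o S = ind (FF j T S)) ∨ (∀ S, C.val o S = ind (¬ FF j T S)) →
          2 ^ 4 ^ j ≤ 2 * C.size + 1 := by
  obtain ⟨T, hT1, hT2⟩ := exists_design m C1 P hm hC hP (Lf j)
  refine ⟨T, fun C o hCo => ?_⟩
  have hcX : Fintype.card (Lf j × Fin C1) = 4 ^ j * C1 := by
    rw [Fintype.card_prod, card_Lf, Fintype.card_fin]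
  have hC2 : 2 ≤ C1 := by
    have h0 : 1 ≤ (4 * m + 2) ^ 2 := Nat.one_le_pow _ _ (by omega)
    calc 2 = 2 * 1 := rfl
      _ ≤ 2 * (4 * m + 2) ^ 2 := Nat.mul_le_mul_left _ h0
      _ ≤ C1 := hC
  have h4 : 1 ≤ 4 ^ j := Nat.one_le_pow _ _ (by norm_num)
  have hP0 : 0 < P := by
    have : 0 < (C1 + 4) ^ 2 * 64 ^ (C1 + 4) := by positivity
    omega
  have hP0' : (0 : ℝ) < P := by exact_mod_cast hP0
  have hle : ∀ p : Prop, ind p ≤ 1 := by
    intro p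
    unfold ind
    split_ifs <;> norm_num
  have h1 : (nInj T : ℝ) ≤ 2 ^ Fintype.card (Lf j) *
      ((2 * C.size + 1) * ((P : ℝ) / 16) ^ Fintype.card (Lf j)) := by
    rcases hCo with hCo | hCo
    · exact count_le T (((P : ℝ) / 16) ^ Fintype.card (Lf j)) hT2 (by rw [hcX]; nlinarith)
        (t := 4 ^ j) (by rw [hcX]; nlinarith) C o _ (fun S => hle _) hCo (lam_FF j T)
    · exact count_le T (((P : ℝ) / 16) ^ Fintype.card (Lf j)) hT2 (by rw [hcX]; nlinarith)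
        (t := 4 ^ j) (by rw [hcX]; nlinarith) C o _ (fun S => hle _) hCo (lam_not j T)
  have h2 := hT1.trans h1
  rw [card_Lf] at h2
  have h3 : ((P : ℝ) / 4) ^ 4 ^ j = ((P : ℝ) / 16) ^ 4 ^ j * (2 ^ 4 ^ j * 2 ^ 4 ^ j) := by
    rw [← mul_pow, ← mul_pow]
    congr 1
    ring
  rw [h3] at h2
  have h5 : (0 : ℝ) < ((P : ℝ) / 16) ^ 4 ^ j := by positivity
  have h6 : (0 : ℝ) < 2 ^ 4 ^ j := by positivity
  have h7 : (((P : ℝ) / 16) ^ 4 ^ j * 2 ^ 4 ^ j) * (2 : ℝ) ^ 4 ^ j ≤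
      (((P : ℝ) / 16) ^ 4 ^ j * 2 ^ 4 ^ j) * (2 * C.size + 1) := by
    calc _ = ((P : ℝ) / 16) ^ 4 ^ j * (2 ^ 4 ^ j * 2 ^ 4 ^ j) := by ring
      _ ≤ 2 ^ 4 ^ j * ((2 * C.size + 1) * ((P : ℝ) / 16) ^ 4 ^ j) := h2
      _ = _ := by ring
  have h8 := le_of_mul_le_mul_left h7 (by positivity)
  exact_mod_cast h8

/-- deterministic decomposable circuits of propositions -/
structure BCirc (V : Type) [DecidableEq V] (t : ℕ) where
  size : ℕ
  vars : Fin size → Finset V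
  val : Fin size → Finset V → Prop
  ok : ∀ i, ((vars i).card ≤ t ∧
      ∀ S S', (∀ v ∈ vars i, v ∈ S ↔ v ∈ S') → (val i S ↔ val i S')) ∨
    (∃ j k, j < i ∧ k < i ∧ vars i = vars j ∪ vars k ∧ (∀ S, ¬ (val j S ∧ val k S)) ∧
      ∀ S, val i S ↔ val j S ∨ val k S) ∨
    (∃ j k, j < i ∧ k < i ∧ vars i = vars j ∪ vars k ∧ Disjoint (vars j) (vars k) ∧
      ∀ S, val i S ↔ val j S ∧ val k S)

/-- a deterministic circuit as a circuit with nonnegative weights -/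
noncomputable def BCirc.toCirc {V : Type} [DecidableEq V] {t : ℕ} (B : BCirc V t) : Circ V t where
  size := B.size
  vars := B.vars
  val := fun i S => ind (B.val i S)
  ok := by
    intro i
    rcases B.ok i with ⟨h1, h2⟩ | ⟨j, k, hj, hk, hv, hd, h⟩ | ⟨j, k, hj, hk, hv, hd, h⟩
    · refine Or.inl ⟨h1, fun S => ?_, fun S S' hS => ind_congr (h2 S S' hS)⟩
      unfold ind
      split_ifs <;> norm_num
    · refine Or.inr (Or.inl ⟨j, k, hj, hk, hv, fun S => ?_⟩)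
      unfold ind
      have h3 := hd S
      by_cases hj : B.val j S
      · have hk : ¬ B.val k S := fun hk => h3 ⟨hj, hk⟩
        rw [if_pos hj, if_neg hk, if_pos ((h S).2 (Or.inl hj))]
        norm_num
      · by_cases hk : B.val k S
        · rw [if_neg hj, if_pos hk, if_pos ((h S).2 (Or.inr hk))]
          norm_num
        · rw [if_neg hj, if_neg hk, if_neg fun hi => ((h S).1 hi).elim hj hk]
          norm_num
    · refine Or.inr (Or.inr ⟨j, k, hj, hk, hv, hd, fun S => ?_⟩)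
      unfold ind
      by_cases hj : B.val j S
      · by_cases hk : B.val k S
        · rw [if_pos hj, if_pos hk, if_pos ((h S).2 ⟨hj, hk⟩)]
          norm_num
        · rw [if_pos hj, if_neg hk, if_neg fun hi => hk ((h S).1 hi).2]
          norm_num
      · rw [if_neg hj, if_neg fun hi => hj ((h S).1 hi).1]
        norm_num

/-- **The hypergraphs.** -/
theorem exists_hyper : ∃ K : ℕ, 1 ≤ K ∧ ∀ j : ℕ, ∃ (V : Type) (_ : Fintype V) (_ : DecidableEq V)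
    (H : Finset (Finset V)), Fintype.card V ≤ K * 4 ^ j ∧
    H.card + (Tr H).ncard ≤ 2 ^ (K * 2 ^ j) ∧
    ∀ (C : Circ V (4 ^ j)) (o : Fin C.size), (∀ S, C.val o S = ind (IsTransversal H S)) ∨
      (∀ S, C.val o S = ind (¬ IsTransversal H S)) → 2 ^ 4 ^ j ≤ 2 * C.size + 1 := by
  obtain ⟨m, hm⟩ : ∃ m : ℕ, (551 / 567 : ℝ) ^ m ≤ 1 / 64 := ⟨150, num_m⟩
  obtain ⟨C1, hC⟩ : ∃ C1 : ℕ, 2 * (4 * m + 2) ^ 2 ≤ C1 := ⟨_, le_rfl⟩
  obtain ⟨P, hP⟩ : ∃ P : ℕ, (C1 + 4) ^ 2 * 64 ^ (C1 + 4) ≤ P := ⟨_, le_rfl⟩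
  have hP0 : 0 < P := by
    have : 0 < (C1 + 4) ^ 2 * 64 ^ (C1 + 4) := by positivity
    omega
  obtain ⟨K, hK1, hK2⟩ : ∃ K : ℕ, C1 + P ≤ K ∧ 1 + 4 * aN (Fin P) m ≤ K :=
    ⟨_, le_max_left _ _, le_max_right _ _⟩
  refine ⟨K, by omega, fun j => ?_⟩
  obtain ⟨T, hT⟩ := size_ge m C1 P hm hC hP j
  have hne : Nonempty (Fin P) := ⟨⟨0, hP0⟩⟩
  obtain ⟨H, h1, h2, h3⟩ := (FF_rep j T).hyper
  refine ⟨(Lf j × Fin C1) ⊕ Lf j × Fin P, inferInstance, inferInstance, H, ?_, ?_,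
    fun C o hCo => hT C o (hCo.imp (fun h S => ?_) fun h S => ?_)⟩
  · rw [Fintype.card_sum, Fintype.card_prod, Fintype.card_prod, card_Lf, Fintype.card_fin,
      Fintype.card_fin]
    calc 4 ^ j * C1 + 4 ^ j * P = (C1 + P) * 4 ^ j := by ring
      _ ≤ K * 4 ^ j := Nat.mul_le_mul_right _ hK1
  · have hTr : (Tr H).ncard ≤ (4 * aN (Fin P) m) ^ 2 ^ j := by
      have hfin : (Tr H).Finite := Set.toFinite _
      rw [← hfin.cast_ncard_eq] at h2
      exact_mod_cast h2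
    have h4 : 4 * aN (Fin P) m ≤ 2 ^ (K - 1) :=
      (Nat.lt_two_pow_self).le.trans (Nat.pow_le_pow_right (by norm_num) (by omega))
    have h5 : (4 * aN (Fin P) m) ^ 2 ^ j ≤ 2 ^ ((K - 1) * 2 ^ j) := by
      rw [pow_mul]
      exact Nat.pow_le_pow_left h4 _
    have h6 : 1 ≤ 2 ^ j := Nat.one_le_two_pow
    have h7 : 2 ^ ((K - 1) * 2 ^ j) * 2 ≤ 2 ^ (K * 2 ^ j) := by
      rw [← pow_succ]
      refine Nat.pow_le_pow_right (by norm_num) ?_
      obtain ⟨K', rfl⟩ : ∃ K', K = K' + 1 := ⟨K - 1, by omega⟩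
      rw [Nat.add_sub_cancel, add_mul]
      omega
    calc H.card + (Tr H).ncard ≤ 2 ^ ((K - 1) * 2 ^ j) + 2 ^ ((K - 1) * 2 ^ j) :=
          add_le_add (h1.trans h5) (hTr.trans h5)
      _ = 2 ^ ((K - 1) * 2 ^ j) * 2 := by ring
      _ ≤ _ := h7
  · rw [h S]
    exact ind_congr (h3 S).symm
  · rw [h S]
    exact ind_congr (not_congr (h3 S).symm)

end Pool.Agent.L5helper60.DN
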