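import Pool.Agent.L5helper18.DD.TreeG
import Pool.Agent.L5helper60.DN.Dec
import Pool.Agent.L5helper60.DN.Disc

/-!
# The function: a balanced tree of gadgets whose places are chosen by unary multiplexers
-/

set_option autoImplicit false
set_option linter.unusedSectionVars false

open Finset

namespace Pool.Agent.L5helper60.DN

open Pool.Agent.L5helper18.DD

/-- the slots of a gadget: two rails for each of the two factors of the `m` products, and two rails
for the linear bit -/
abbrev Sl (m : ℕ) := (Fin m × Bool × Bool) ⊕ Bool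

variable {m : ℕ}

/-- the slots which are used for the bits `a`, `b`, `w` -/
def on (a b : Fin m → Bool) (w : Bool) : Sl m → Prop
  | .inl (l, false, ρ) => a l = ρ
  | .inl (l, true, ρ) => b l = ρ
  | .inr ρ => w = ρ

/-- the value of a gadget: is `w + ∑ a l * b l` odd? -/
def ev (a b : Fin m → Bool) (w : Bool) : Prop := sg w * ∏ l, sg (a l && b l) = -1

/-- the gadget as a monotone function -/
def gad {V : Type} (τ : Sl m → V) (S : Finset V) : Prop :=
  ∃ a b w, ev a b w ∧ ∀ σ, on a b w σ → τ σ ∈ S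

theorem eq_of_on {a b a' b' : Fin m → Bool} {w w' : Bool}
    (h : ∀ σ, on a b w σ → on a' b' w' σ) : a = a' ∧ b = b' ∧ w = w' := by
  refine ⟨?_, ?_, ?_⟩
  · funext l
    exact (h (.inl (l, false, a l)) rfl).symm
  · funext l
    exact (h (.inl (l, true, b l)) rfl).symm
  · exact (h (.inr w) rfl).symm

section rep

variable {V : Type} [DecidableEq V]

theorem rep_of_mono (f : Finset V → Prop) (hf : ∀ S S', S ⊆ S' → f S → f S') (Y : Finset V)
    (hY : ∀ S, f S → f (S ∩ Y)) : Rep f (2 ^ Y.card) (2 ^ Y.card) := by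
  classical
  refine ⟨Y.powerset.filter fun E => ¬ f (Y \ E), Y.powerset.filter f,
    (card_filter_le _ _).trans_eq (card_powerset Y),
    (card_filter_le _ _).trans_eq (card_powerset Y), fun S => ⟨fun h E hE => ?_, fun h => ?_⟩,
    fun S => ⟨fun h => ?_, fun h => ?_⟩⟩
  · obtain ⟨hE1, hE2⟩ := mem_filter.1 hE
    by_contra hcon
    push Not at hcon
    refine hE2 (hf _ _ ?_ (hY S h))
    intro v hv
    obtain ⟨h1, h2⟩ := mem_inter.1 hv
    exact mem_sdiff.2 ⟨h2, fun h3 => hcon v h3 h1⟩
  · by_contra hcon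
    obtain ⟨v, hv, hvS⟩ := h (Y \ S) (mem_filter.2 ⟨mem_powerset.2 sdiff_subset, fun h' => hcon
      (hf _ _ (by
        intro v hv
        obtain ⟨h1, h2⟩ := mem_sdiff.1 hv
        by_contra h3
        exact h2 (mem_sdiff.2 ⟨h1, h3⟩)) h')⟩)
    exact (mem_sdiff.1 hv).2 hvS
  · exact ⟨S ∩ Y, mem_filter.2 ⟨mem_powerset.2 inter_subset_right, hY S h⟩, inter_subset_left⟩
  · obtain ⟨T, hT, hTS⟩ := h
    exact hf _ _ hTS (mem_filter.1 hT).2

theorem card_Sl : Fintype.card (Sl m) = 4 * m + 2 := by
  simp only [Sl, Fintype.card_sum, Fintype.card_prod, Fintype.card_fin, Fintype.card_bool]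
  ring

theorem gad_rep (τ : Sl m → V) : Rep (gad τ) (2 ^ (4 * m + 2)) (2 ^ (4 * m + 2)) := by
  classical
  have h1 : (univ.image τ).card ≤ 4 * m + 2 := card_image_le.trans_eq (by rw [card_univ, card_Sl])
  refine (rep_of_mono (gad τ) ?_ (univ.image τ) ?_).mono
    (Nat.pow_le_pow_right (by norm_num) h1) (Nat.pow_le_pow_right (by norm_num) h1)
  · rintro S S' hS ⟨a, b, w, h, h'⟩
    exact ⟨a, b, w, h, fun σ hσ => hS (h' σ hσ)⟩
  · rintro S ⟨a, b, w, h, h'⟩
    exact ⟨a, b, w, h, fun σ hσ => mem_inter.2 ⟨h' σ hσ, mem_image_of_mem _ (mem_univ _)⟩⟩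

theorem rep_tree (a : ℕ) : ∀ (j : ℕ) (y : Lf j → Finset V → Prop),
    (∀ q, Rep (y q) a a) → Rep (fun S => G j fun q => y q S) ((4 * a) ^ 2 ^ j)
      ((4 * a) ^ 2 ^ j) := by
  have key : ∀ (j : ℕ) (y : Lf j → Finset V → Prop), (∀ q, Rep (y q) a a) →
      ∃ b, 4 * b = (4 * a) ^ 2 ^ j ∧ Rep (fun S => G j fun q => y q S) b b := by
    intro j
    induction j with
    | zero => exact fun y h => ⟨a, by simp, h ()⟩
    | succ j ih =>
      intro y h
      have h1 : ∀ l i : Bool, ∃ b, 4 * b = (4 * a) ^ 2 ^ j ∧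
          Rep (fun S => G j fun q => y (l, i, q) S) b b :=
        fun l i => ih (fun q => y (l, i, q)) fun q => h (l, i, q)
      obtain ⟨b, hb, -⟩ := h1 false false
      have h1' : ∀ l i : Bool, Rep (fun S => G j fun q => y (l, i, q) S) b b := by
        intro l i
        obtain ⟨b', hb', hr⟩ := h1 l i
        have : b' = b := by omega
        rwa [this] at hr
      refine ⟨4 * b ^ 2, ?_, ?_⟩
      · have e : (4 * a) ^ 2 ^ (j + 1) = ((4 * a) ^ 2 ^ j) ^ 2 := by rw [← pow_mul, ← pow_succ]
        rw [e, ← hb]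
        ring
      · have h2 : ∀ l : Bool, Rep (fun S => (G j fun q => y (l, false, q) S) ∧
            G j fun q => y (l, true, q) S) (2 * b) (b ^ 2) := fun l =>
          ((h1' l false).and (h1' l true)).mono (le_of_eq (by ring)) (le_of_eq (by ring))
        have h3 := (h2 false).or (h2 true)
        refine (h3.congr fun S => ?_).mono (le_of_eq (by ring)) (by nlinarith)
        show (∃ l, ∀ i, G j fun q => y (l, i, q) S) ↔ _
        simp only [Bool.exists_bool, Bool.forall_bool]
  intro j y h
  obtain ⟨b, hb, hr⟩ := key j y h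
  exact hr.mono (by omega) (by omega)

end rep

variable {L Q X : Type} [Fintype L] [DecidableEq L] [Fintype Q] [DecidableEq Q] [Fintype X]
  [DecidableEq X]

/-- the function at a leaf: a unary multiplexer chooses a tuple of places for the slots of the
gadget -/
def leafF (T : L → Q → Sl m → X) (i : L) (S : Finset (X ⊕ L × Q)) : Prop :=
  mux (fun q : Q => (Sum.inr (i, q) : X ⊕ L × Q)) (fun q => gad fun σ => Sum.inl (T i q σ)) S

/-- the function: the tree of the leaf functions -/
def FF (j : ℕ) (T : Lf j → Q → Sl m → X) (S : Finset (X ⊕ Lf j × Q)) : Prop :=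
  G j fun i => leafF T i S

/-- bound for the numbers of clauses and terms at a leaf -/
def aN (Q : Type) [Fintype Q] (m : ℕ) : ℕ := (Fintype.card Q) ^ 2 * 2 ^ (4 * m + 3)

theorem leaf_rep [Nonempty Q] (T : L → Q → Sl m → X) (i : L) :
    Rep (leafF T i) (aN Q m) (aN Q m) := by
  have h := Rep.mux (fun q : Q => (Sum.inr (i, q) : X ⊕ L × Q))
    (fun q => gad fun σ => Sum.inl (T i q σ)) fun q => gad_rep _
  have hQ : 1 ≤ Fintype.card Q := Fintype.card_pos
  have h2 : 1 ≤ 2 ^ (4 * m + 2) := Nat.one_le_two_pow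
  have h3 : Fintype.card Q ≤ Fintype.card Q ^ 2 := by nlinarith
  have e : 2 ^ (4 * m + 3) = 2 ^ (4 * m + 2) * 2 := pow_succ _ _
  refine h.mono ?_ ?_
  · unfold aN
    rw [e]
    have h4 := Nat.mul_le_mul h3 (le_refl (2 ^ (4 * m + 2)))
    have h5 : 1 * 1 ≤ Fintype.card Q ^ 2 * 2 ^ (4 * m + 2) :=
      Nat.mul_le_mul (Nat.one_le_pow _ _ hQ) h2
    calc 1 + Fintype.card Q * 2 ^ (4 * m + 2)
        ≤ Fintype.card Q ^ 2 * 2 ^ (4 * m + 2) + Fintype.card Q ^ 2 * 2 ^ (4 * m + 2) :=
          add_le_add h5 h4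
      _ = _ := by ring
  · unfold aN
    rw [e]
    have h4 := Nat.mul_le_mul h3 (le_refl (2 ^ (4 * m + 2)))
    have h5 := Nat.mul_le_mul (le_refl (Fintype.card Q ^ 2)) h2
    calc Fintype.card Q ^ 2 + Fintype.card Q * 2 ^ (4 * m + 2)
        ≤ Fintype.card Q ^ 2 * 2 ^ (4 * m + 2) + Fintype.card Q ^ 2 * 2 ^ (4 * m + 2) :=
          add_le_add (by rw [mul_one] at h5; exact h5) h4
      _ = _ := by ring

theorem FF_rep [Nonempty Q] (j : ℕ) (T : Lf j → Q → Sl m → X) :
    Rep (FF j T) ((4 * aN Q m) ^ 2 ^ j) ((4 * aN Q m) ^ 2 ^ j) :=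
  rep_tree (aN Q m) j (fun i => leafF T i) fun i => leaf_rep T i

/-- the vertex is used for the choice `c` of the tuples and the bits `a`, `b`, `w` -/
def selP (T : L → Q → Sl m → X) (c : L → Q) (a b : L × Fin m → Bool) (w : L → Bool) :
    X ⊕ L × Q → Prop
  | .inl x => ∃ i σ, on (fun l => a (i, l)) (fun l => b (i, l)) (w i) σ ∧ T i (c i) σ = x
  | .inr (i, q) => c i = q

open Classical in
/-- the set which belongs to the choice `c` of the tuples and to the bits `a`, `b`, `w` -/
noncomputable def sel (T : L → Q → Sl m → X) (c : L → Q) (a b : L × Fin m → Bool) (w : L → Bool) :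
    Finset (X ⊕ L × Q) :=
  univ.filter (selP T c a b w)

theorem mem_sel {T : L → Q → Sl m → X} {c : L → Q} {a b : L × Fin m → Bool} {w : L → Bool}
    {v : X ⊕ L × Q} : v ∈ sel T c a b w ↔ selP T c a b w v := by
  classical
  unfold sel
  simp

theorem inl_mem_sel {T : L → Q → Sl m → X} {c : L → Q} {a b : L × Fin m → Bool} {w : L → Bool}
    {x : X} : Sum.inl x ∈ sel T c a b w ↔
      ∃ i σ, on (fun l => a (i, l)) (fun l => b (i, l)) (w i) σ ∧ T i (c i) σ = x := mem_sel

theorem inr_mem_sel {T : L → Q → Sl m → X} {c : L → Q} {a b : L × Fin m → Bool} {w : L → Bool}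
    {i : L} {q : Q} : Sum.inr (i, q) ∈ sel T c a b w ↔ c i = q := mem_sel

/-- the chosen tuples do not overlap -/
def Inj (T : L → Q → Sl m → X) (c : L → Q) : Prop :=
  Function.Injective fun p : L × Sl m => T p.1 (c p.1) p.2

theorem leaf_eval {T : L → Q → Sl m → X} {c : L → Q} (hc : Inj T c) (a b : L × Fin m → Bool)
    (w : L → Bool) (i : L) : leafF T i (sel T c a b w) ↔
      ev (fun l => a (i, l)) (fun l => b (i, l)) (w i) := by
  unfold leafF mux
  constructor
  · rintro (⟨q, q', hq, h1, h2⟩ | ⟨q, h1, a', b', w', h2, h3⟩)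
    · exact absurd ((inr_mem_sel.1 h1).symm.trans (inr_mem_sel.1 h2)) hq
    · have hq := inr_mem_sel.1 h1
      subst hq
      obtain ⟨e1, e2, e3⟩ := eq_of_on (a := a') (b := b') (w := w')
        (a' := fun l => a (i, l)) (b' := fun l => b (i, l)) (w' := w i) (fun σ hσ => by
          obtain ⟨i', σ', h4, h5⟩ := inl_mem_sel.1 (h3 σ hσ)
          have h6 := hc (a₁ := (i', σ')) (a₂ := (i, σ)) h5
          simp only [Prod.mk.injEq] at h6
          obtain ⟨rfl, rfl⟩ := h6
          exact h4)
      rw [← e1, ← e2, ← e3]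
      exact h2
  · intro h
    exact Or.inr ⟨c i, inr_mem_sel.2 rfl, _, _, _, h, fun σ hσ => inl_mem_sel.2 ⟨i, σ, hσ, rfl⟩⟩

open Classical in
/-- the indicator of a proposition -/
noncomputable def ind (p : Prop) : ℝ := if p then 1 else 0

theorem ind_congr {p q : Prop} (h : p ↔ q) : ind p = ind q := by
  unfold ind
  by_cases hp : p
  · rw [if_pos hp, if_pos (h.1 hp)]
  · rw [if_neg hp, if_neg fun hq => hp (h.2 hq)]

theorem sum_sg : ∀ (P : Type) [Fintype P] [DecidableEq P] [Nonempty P],
    ∑ y : P → Bool, ∏ q, sg (y q) = 0 := by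
  intro P _ _ hP
  rw [sum_prod_pi (fun _ k => sg k)]
  obtain ⟨p⟩ := hP
  refine Finset.prod_eq_zero (mem_univ p) ?_
  rw [Fintype.sum_bool]
  simp [sg]

instance instNonemptyLf : ∀ j, Nonempty (Lf j)
  | 0 => ⟨()⟩
  | j + 1 => by
    obtain ⟨q⟩ := instNonemptyLf j
    exact ⟨(false, false, q)⟩

/-- the highest Fourier coefficient of the tree -/
theorem tree_sum : ∀ j : ℕ,
    ∑ y : Lf j → Bool, (∏ q, sg (y q)) * ind (G j fun q => y q = true) = -1
  | 0 => by
    have h : ∀ y : Lf 0 → Bool, (∏ q, sg (y q)) * ind (G 0 fun q => y q = true) =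
        ∏ q, sg (y q) * (if y q = true then 1 else 0) := by
      intro y
      have h1 : ∏ q : Lf 0, sg (y q) = sg (y ()) := Fintype.prod_unique (ι := Unit) fun q => sg (y q)
      have h2 : ∏ q : Lf 0, sg (y q) * (if y q = true then (1 : ℝ) else 0) =
          sg (y ()) * (if y () = true then (1 : ℝ) else 0) :=
        Fintype.prod_unique (ι := Unit) fun q => sg (y q) * (if y q = true then (1 : ℝ) else 0)
      rw [h1, h2]
      congr 1
      unfold ind
      by_cases hy : y () = true
      · rw [if_pos (show G 0 fun q => y q = true from hy), if_pos hy]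
      · rw [if_neg (show ¬ G 0 fun q => y q = true from hy), if_neg hy]
    rw [Finset.sum_congr rfl fun y _ => h y,
      sum_prod_pi (fun _ k => sg k * (if k = true then 1 else 0))]
    have h3 : ∏ _q : Lf 0, ∑ k : Bool, sg k * (if k = true then (1 : ℝ) else 0) =
        ∑ k : Bool, sg k * (if k = true then (1 : ℝ) else 0) :=
      Fintype.prod_unique (ι := Unit) fun _ => ∑ k : Bool, sg k * (if k = true then (1 : ℝ) else 0)
    rw [h3, Fintype.sum_bool]
    simp [sg]
  | j + 1 => by
    have ih := tree_sum j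
    -- functions of the two branches
    let e : (Lf (j + 1) → Bool) ≃ (Bool → Bool → Lf j → Bool) :=
      { toFun := fun y l i q => y (l, i, q)
        invFun := fun y q => y q.1 q.2.1 q.2.2
        left_inv := fun y => by funext q; rfl
        right_inv := fun y => by funext l i q; rfl }
    have hbr : ∀ l : Bool, ∑ y : Bool → Lf j → Bool,
        (∏ i, ∏ q, sg (y i q)) * ind (∀ i, G j fun q => y i q = true) = 1 := by
      intro l
      have h1 : ∀ y : Bool → Lf j → Bool,
          (∏ i, ∏ q, sg (y i q)) * ind (∀ i, G j fun q => y i q = true) =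
          ∏ i, ((∏ q, sg (y i q)) * ind (G j fun q => y i q = true)) := by
        intro y
        rw [Finset.prod_mul_distrib]
        congr 1
        rw [Fintype.prod_bool]
        unfold ind
        by_cases h0 : G j fun q => y true q = true
        · by_cases h1 : G j fun q => y false q = true
          · rw [if_pos h0, if_pos h1, if_pos (by rintro (_ | _) <;> assumption)]
            norm_num
          · rw [if_neg h1, if_neg fun h => h1 (h false)]
            norm_num
        · rw [if_neg h0, if_neg fun h => h0 (h true)]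
          norm_num
      rw [Finset.sum_congr rfl fun y _ => h1 y,
        sum_prod_pi (fun _ (k : Lf j → Bool) => (∏ q, sg (k q)) * ind (G j fun q => k q = true)),
        Fintype.prod_bool, ih]
      norm_num
    have hz : ∑ y : Bool → Lf j → Bool, ∏ i, ∏ q, sg (y i q) = 0 := by
      rw [sum_prod_pi (fun _ (k : Lf j → Bool) => ∏ q, sg (k q)), Fintype.prod_bool, sum_sg]
      norm_num
    have h2 : ∑ y : Lf (j + 1) → Bool, (∏ q, sg (y q)) * ind (G (j + 1) fun q => y q = true) =
        ∑ y : Bool → Bool → Lf j → Bool, (∏ l, ∏ i, ∏ q, sg (y l i q)) *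
          ind (∃ l, ∀ i, G j fun q => y l i q = true) := by
      refine Fintype.sum_equiv e _ _ fun y => ?_
      congr 1
      have : ∏ q : Lf (j + 1), sg (y q) = ∏ q : Bool × Bool × Lf j, sg (y q) := rfl
      rw [this, Fintype.prod_prod_type]
      refine Finset.prod_congr rfl fun l _ => ?_
      rw [Fintype.prod_prod_type]
      rfl
    have h3 : ∀ y : Bool → Bool → Lf j → Bool, (∏ l, ∏ i, ∏ q, sg (y l i q)) *
        ind (∃ l, ∀ i, G j fun q => y l i q = true) =
        (∏ l, ∏ i, ∏ q, sg (y l i q)) - ∏ l, ((∏ i, ∏ q, sg (y l i q)) -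
          (∏ i, ∏ q, sg (y l i q)) * ind (∀ i, G j fun q => y l i q = true)) := by
      intro y
      rw [Fintype.prod_bool (fun l => ∏ i, ∏ q, sg (y l i q)),
        Fintype.prod_bool (fun l => (∏ i, ∏ q, sg (y l i q)) - (∏ i, ∏ q, sg (y l i q)) *
          ind (∀ i, G j fun q => y l i q = true))]
      unfold ind
      by_cases h0 : ∀ i, G j fun q => y true i q = true
      · by_cases h1 : ∀ i, G j fun q => y false i q = true
        · rw [if_pos h0, if_pos h1, if_pos ⟨true, h0⟩]
          ring
        · rw [if_pos h0, if_neg h1, if_pos ⟨true, h0⟩]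
          ring
      · by_cases h1 : ∀ i, G j fun q => y false i q = true
        · rw [if_neg h0, if_pos h1, if_pos ⟨false, h1⟩]
          ring
        · rw [if_neg h0, if_neg h1, if_neg (by
            rintro ⟨l, hl⟩
            cases l
            · exact h1 hl
            · exact h0 hl)]
          ring
    rw [h2, Finset.sum_congr rfl fun y _ => h3 y, Finset.sum_sub_distrib,
      sum_prod_pi (fun _ (k : Bool → Lf j → Bool) => ∏ i, ∏ q, sg (k i q)),
      sum_prod_pi (fun _ (k : Bool → Lf j → Bool) => (∏ i, ∏ q, sg (k i q)) -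
        (∏ i, ∏ q, sg (k i q)) * ind (∀ i, G j fun q => k i q = true)),
      Fintype.prod_bool, Fintype.prod_bool, Finset.sum_sub_distrib, hz, hbr true]
    norm_num

theorem exists_sg {P : Type} [Fintype P] (f : P → Bool) : ∃ δ : Bool, sg δ = ∏ p, sg (f p) := by
  have h : (∏ p, sg (f p) = 1) ∨ ∏ p, sg (f p) = -1 := by
    apply Finset.prod_induction _ (fun x : ℝ => x = 1 ∨ x = -1)
    · rintro a b (rfl | rfl) (rfl | rfl) <;> norm_num
    · exact Or.inl rfl
    · intro p _
      cases f p
      · left; simp [sg]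
      · right; simp [sg]
  rcases h with h | h
  · exact ⟨false, by rw [h]; simp [sg]⟩
  · exact ⟨true, by rw [h]; simp [sg]⟩

theorem sg_eq_neg_one (a : Bool) : sg a = -1 ↔ a = true := by
  cases a
  · simp [sg]; norm_num
  · simp [sg]

/-- **the correlation of the function with the sign** -/
theorem corr (j : ℕ) (T : Lf j → Q → Sl m → X) (c : Lf j → Q) (hc : Inj T c) :
    ∑ w : Lf j → Bool, ∑ a : Lf j × Fin m → Bool, ∑ b : Lf j × Fin m → Bool,
      (∏ p, sg (a p && b p)) * ((∏ i, sg (w i)) * ind (FF j T (sel T c a b w))) =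
      -(4 ^ Fintype.card (Lf j × Fin m)) := by
  have h1 : ∀ a b : Lf j × Fin m → Bool, ∑ w : Lf j → Bool,
      (∏ p, sg (a p && b p)) * ((∏ i, sg (w i)) * ind (FF j T (sel T c a b w))) = -1 := by
    intro a b
    have hδ : ∀ i, ∃ δ : Bool, sg δ = ∏ l, sg (a (i, l) && b (i, l)) := fun i =>
      exists_sg fun l => a (i, l) && b (i, l)
    choose δ hδ using hδ
    have h2 : ∀ w : Lf j → Bool,
        (∏ p, sg (a p && b p)) * ((∏ i, sg (w i)) * ind (FF j T (sel T c a b w))) =
        (∏ i, sg (xor (w i) (δ i))) * ind (G j fun i => xor (w i) (δ i) = true) := by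
      intro w
      have h3 : ∏ p, sg (a p && b p) = ∏ i, sg (δ i) := by
        rw [Fintype.prod_prod_type]
        exact Finset.prod_congr rfl fun i _ => (hδ i).symm
      have h4 : FF j T (sel T c a b w) ↔ G j fun i => xor (w i) (δ i) = true := by
        unfold FF
        have : (fun i => leafF T i (sel T c a b w)) = fun i => xor (w i) (δ i) = true := by
          funext i
          apply propext
          rw [leaf_eval hc]
          unfold ev
          rw [← hδ, ← sg_xor]
          exact sg_eq_neg_one _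
        rw [this]
      rw [ind_congr h4, h3, ← mul_assoc, ← Finset.prod_mul_distrib]
      congr 1
      refine Finset.prod_congr rfl fun i _ => ?_
      rw [sg_xor, mul_comm]
    rw [Finset.sum_congr rfl fun w _ => h2 w]
    have hinv : Function.Involutive fun (w : Lf j → Bool) i => xor (w i) (δ i) := by
      intro w
      funext i
      show xor (xor (w i) (δ i)) (δ i) = w i
      cases w i <;> cases δ i <;> rfl
    rw [← tree_sum j]
    exact Fintype.sum_equiv hinv.toPerm _ _ fun w => rfl
  calc _ = ∑ a : Lf j × Fin m → Bool, ∑ b : Lf j × Fin m → Bool, ∑ w : Lf j → Bool,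
      (∏ p, sg (a p && b p)) * ((∏ i, sg (w i)) * ind (FF j T (sel T c a b w))) := by
        rw [Finset.sum_comm]
        exact Finset.sum_congr rfl fun a _ => Finset.sum_comm
    _ = ∑ _a : Lf j × Fin m → Bool, ∑ _b : Lf j × Fin m → Bool, (-1 : ℝ) :=
        Finset.sum_congr rfl fun a _ => Finset.sum_congr rfl fun b _ => h1 a b
    _ = _ := by
        rw [Finset.sum_const, Finset.sum_const, card_univ, Fintype.card_fun, Fintype.card_bool]
        simp only [nsmul_eq_mul, Nat.cast_pow, Nat.cast_ofNat, mul_neg, mul_one]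
        rw [← mul_pow]
        norm_num

end Pool.Agent.L5helper60.DN
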