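import Pool.Agent.L5helper60.DN.Fun

/-!
# The lower bound for decomposable circuits, for a given design
-/

set_option autoImplicit false
set_option linter.unusedSectionVars false

open Finset

namespace Pool.Agent.L5helper60.DN

open Pool.Agent.L5helper18.DD

variable {m : ℕ}

/-- the product `l` of the gadget is split by `A`: the places of one factor belong to `A`, those of
the other one do not -/
def Gd {X : Type} (A : Finset X) (τ : Sl m → X) (l : Fin m) : Prop :=
  ((∀ ρ, τ (.inl (l, false, ρ)) ∈ A) ∧ ∀ ρ, τ (.inl (l, true, ρ)) ∉ A) ∨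
    ((∀ ρ, τ (.inl (l, false, ρ)) ∉ A) ∧ ∀ ρ, τ (.inl (l, true, ρ)) ∈ A)

open Classical in
/-- the weight of a tuple -/
noncomputable def wt {X : Type} (A : Finset X) (τ : Sl m → X) : ℝ :=
  ∏ l, if Gd A τ l then 5 / 7 else 1

theorem wt_nonneg {X : Type} (A : Finset X) (τ : Sl m → X) : 0 ≤ wt A τ := by
  refine Finset.prod_nonneg fun l _ => ?_
  split_ifs <;> norm_num

theorem wt_le_one {X : Type} (A : Finset X) (τ : Sl m → X) : wt A τ ≤ 1 := by
  refine Finset.prod_le_one (fun l _ => ?_) fun l _ => ?_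
  · split_ifs <;> norm_num
  · split_ifs <;> norm_num

section norm

variable {V : Type} [DecidableEq V] [Fintype V]

theorem norm_pair (A : Finset V) (g h : Finset V → ℝ) (hg : ∀ S, 0 ≤ g S) (hh : ∀ S, 0 ≤ h S)
    (hgA : DependsOn g A) (hhA : IndepOf h A) (hgh : ∀ S, g S * h S ≤ 1) :
    ∃ (u v : Finset V → ℝ) (γ : ℝ), 0 ≤ γ ∧ γ ≤ 1 ∧ (∀ S, |u S| ≤ 1) ∧ (∀ S, |v S| ≤ 1) ∧
      DependsOn u A ∧ IndepOf v A ∧ ∀ S, g S * h S = γ * (u S * v S) := by
  obtain ⟨S1, h1⟩ := Finite.exists_max g
  obtain ⟨S2, h2⟩ := Finite.exists_max h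
  have h3 : g S1 * h S2 ≤ 1 := by
    have e1 : g ((S1 ∩ A) ∪ (S2 \ A)) = g S1 := hgA _ _ fun v hv => by
      simp only [mem_union, mem_inter, mem_sdiff]
      tauto
    have e2 : h ((S1 ∩ A) ∪ (S2 \ A)) = h S2 := hhA _ _ fun v hv => by
      simp only [mem_union, mem_inter, mem_sdiff]
      tauto
    have := hgh ((S1 ∩ A) ∪ (S2 \ A))
    rwa [e1, e2] at this
  by_cases h0 : g S1 = 0 ∨ h S2 = 0
  · refine ⟨fun _ => 0, fun _ => 0, 0, le_rfl, zero_le_one, by simp, by simp,
      fun _ _ _ => rfl, fun _ _ _ => rfl, fun S => ?_⟩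
    rcases h0 with h0 | h0
    · have : g S = 0 := le_antisymm (h0 ▸ h1 S) (hg S)
      rw [this]; ring
    · have : h S = 0 := le_antisymm (h0 ▸ h2 S) (hh S)
      rw [this]; ring
  · push Not at h0
    have p1 : 0 < g S1 := lt_of_le_of_ne (hg _) (Ne.symm h0.1)
    have p2 : 0 < h S2 := lt_of_le_of_ne (hh _) (Ne.symm h0.2)
    refine ⟨fun S => g S / g S1, fun S => h S / h S2, g S1 * h S2, by positivity, h3,
      fun S => ?_, fun S => ?_, fun S S' hS => ?_, fun S S' hS => ?_, fun S => ?_⟩
    · rw [abs_of_nonneg (div_nonneg (hg S) p1.le)]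
      exact (div_le_one p1).2 (h1 S)
    · rw [abs_of_nonneg (div_nonneg (hh S) p2.le)]
      exact (div_le_one p2).2 (h2 S)
    · show g S / g S1 = g S' / g S1
      rw [hgA S S' hS]
    · show h S / h S2 = h S' / h S2
      rw [hhA S S' hS]
    · field_simp

end norm

variable {L Q X : Type} [Fintype L] [DecidableEq L] [Fintype Q] [DecidableEq Q] [Fintype X]
  [DecidableEq X]

/-- the part of a set in `X` -/
def pX (A : Finset (X ⊕ L × Q)) : Finset X := univ.filter fun x => Sum.inl x ∈ A

theorem mem_pX {A : Finset (X ⊕ L × Q)} {x : X} : x ∈ pX A ↔ Sum.inl x ∈ A := by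
  unfold pX
  simp

theorem card_pX (A : Finset (X ⊕ L × Q)) :
    (A ∩ (univ : Finset X).map Function.Embedding.inl).card = (pX A).card := by
  have : A ∩ (univ : Finset X).map Function.Embedding.inl =
      (pX A).map Function.Embedding.inl := by
    ext v
    simp only [mem_inter, mem_map, mem_univ, true_and, mem_pX]
    constructor
    · rintro ⟨h1, x, rfl⟩
      exact ⟨x, h1, rfl⟩
    · rintro ⟨x, h1, rfl⟩
      exact ⟨h1, x, rfl⟩
  rw [this, card_map]

/-- the linear functional which belongs to the choice `c` -/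
noncomputable def lam (T : L → Q → Sl m → X) (c : L → Q) (f : Finset (X ⊕ L × Q) → ℝ) : ℝ :=
  ∑ w : L → Bool, ∑ a : L × Fin m → Bool, ∑ b : L × Fin m → Bool,
    (∏ p, sg (a p && b p)) * ((∏ i, sg (w i)) * f (sel T c a b w))

theorem lam_sum (T : L → Q → Sl m → X) (c : L → Q) {E : Type} [Fintype E]
    (f : E → Finset (X ⊕ L × Q) → ℝ) :
    lam T c (fun S => ∑ e, f e S) = ∑ e, lam T c (f e) := by
  unfold lam
  calc ∑ w : L → Bool, ∑ a : L × Fin m → Bool, ∑ b : L × Fin m → Bool,
        (∏ p, sg (a p && b p)) * ((∏ i, sg (w i)) * ∑ e, f e (sel T c a b w))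
      = ∑ w : L → Bool, ∑ a : L × Fin m → Bool, ∑ b : L × Fin m → Bool, ∑ e,
        (∏ p, sg (a p && b p)) * ((∏ i, sg (w i)) * f e (sel T c a b w)) := by
        refine Finset.sum_congr rfl fun w _ => Finset.sum_congr rfl fun a _ =>
          Finset.sum_congr rfl fun b _ => ?_
        rw [Finset.mul_sum, Finset.mul_sum]
    _ = ∑ w : L → Bool, ∑ a : L × Fin m → Bool, ∑ e, ∑ b : L × Fin m → Bool,
        (∏ p, sg (a p && b p)) * ((∏ i, sg (w i)) * f e (sel T c a b w)) :=
        Finset.sum_congr rfl fun w _ => Finset.sum_congr rfl fun a _ => Finset.sum_comm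
    _ = ∑ w : L → Bool, ∑ e, ∑ a : L × Fin m → Bool, ∑ b : L × Fin m → Bool,
        (∏ p, sg (a p && b p)) * ((∏ i, sg (w i)) * f e (sel T c a b w)) :=
        Finset.sum_congr rfl fun w _ => Finset.sum_comm
    _ = _ := Finset.sum_comm

theorem rect_bound (T : L → Q → Sl m → X) (c : L → Q) (A : Finset (X ⊕ L × Q))
    (g h : Finset (X ⊕ L × Q) → ℝ) (hg : ∀ S, 0 ≤ g S) (hh : ∀ S, 0 ≤ h S)
    (hgA : DependsOn g A) (hhA : IndepOf h A) (hgh : ∀ S, g S * h S ≤ 1) :
    |lam T c fun S => g S * h S| ≤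
      2 ^ Fintype.card L * (4 ^ Fintype.card (L × Fin m) * ∏ i, wt (pX A) (T i (c i))) := by
  classical
  unfold lam
  obtain ⟨u, v, γ, hγ0, hγ1, hu, hv, huA, hvA, huv⟩ := norm_pair A g h hg hh hgA hhA hgh
  set D : Finset (L × Fin m) := univ.filter fun p => Gd (pX A) (T p.1 (c p.1)) p.2 with hD
  have hwt : ∏ i, wt (pX A) (T i (c i)) = (5 / 7 : ℝ) ^ D.card := by
    have h1 : ∏ i, wt (pX A) (T i (c i)) =
        ∏ p : L × Fin m, if p ∈ D then (5 / 7 : ℝ) else 1 := by
      rw [Fintype.prod_prod_type]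
      refine Finset.prod_congr rfl fun i _ => ?_
      unfold wt
      refine Finset.prod_congr rfl fun l _ => ?_
      by_cases hp : Gd (pX A) (T i (c i)) l
      · rw [if_pos hp, if_pos (by rw [hD]; exact mem_filter.2 ⟨mem_univ _, hp⟩)]
      · rw [if_neg hp, if_neg (by rw [hD]; exact fun h => hp (mem_filter.1 h).2)]
    rw [h1, prod_ite_pow D (5 / 7) 1 one_ne_zero]
    simp
  have hw : ∀ w : L → Bool, |∑ a : L × Fin m → Bool, ∑ b : L × Fin m → Bool,
      (∏ p, sg (a p && b p)) * (u (sel T c a b w) * v (sel T c a b w))| ≤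
      4 ^ Fintype.card (L × Fin m) * (5 / 7) ^ D.card := by
    intro w
    refine disc_or D (fun p => !(decide (∀ ρ, T p.1 (c p.1) (.inl (p.2, false, ρ)) ∈ pX A)))
      (fun a b => u (sel T c a b w)) (fun a b => v (sel T c a b w)) (fun _ _ => hu _)
      (fun _ _ => hv _) ?_ ?_
    · intro a b a' b' ha hb
      refine huA _ _ ?_
      have key : ∀ (a b a' b' : L × Fin m → Bool),
          (∀ p, p ∉ D ∨ (!(decide (∀ ρ, T p.1 (c p.1) (.inl (p.2, false, ρ)) ∈ pX A))) = false →
            a p = a' p) →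
          (∀ p, p ∉ D ∨ (!(decide (∀ ρ, T p.1 (c p.1) (.inl (p.2, false, ρ)) ∈ pX A))) = true →
            b p = b' p) →
          ∀ s ∈ A, s ∈ sel T c a b w → s ∈ sel T c a' b' w := by
        intro a b a' b' ha hb s hsA hs
        rcases s with x | ⟨i, q⟩
        · obtain ⟨i, σ, h1, h2⟩ := inl_mem_sel.1 hs
          refine inl_mem_sel.2 ⟨i, σ, ?_, h2⟩
          have hxA : T i (c i) σ ∈ pX A := by rw [h2]; exact mem_pX.2 hsA
          rcases σ with ⟨l, _ | _, ρ⟩ | ρ
          · show a' (i, l) = ρ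
            have h3 : a (i, l) = ρ := h1
            rw [← h3]
            refine (ha (i, l) ?_).symm
            by_cases hp : (i, l) ∈ D
            · right
              rcases (mem_filter.1 hp).2 with h4 | h4
              · simp only [Bool.not_eq_false', decide_eq_true_eq]
                exact h4.1
              · exact absurd hxA (h4.1 ρ)
            · exact Or.inl hp
          · show b' (i, l) = ρ
            have h3 : b (i, l) = ρ := h1
            rw [← h3]
            refine (hb (i, l) ?_).symm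
            by_cases hp : (i, l) ∈ D
            · right
              rcases (mem_filter.1 hp).2 with h4 | h4
              · exact absurd hxA (h4.2 ρ)
              · simp only [Bool.not_eq_true', decide_eq_false_iff_not]
                exact fun h5 => h4.1 true (h5 true)
            · exact Or.inl hp
          · exact h1
        · exact inr_mem_sel.2 (inr_mem_sel.1 hs)
      intro s hs
      exact ⟨key a b a' b' ha hb s hs, key a' b' a b (fun p hp => (ha p hp).symm)
        (fun p hp => (hb p hp).symm) s hs⟩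
    · intro a b a' b' ha hb
      refine hvA _ _ ?_
      have key : ∀ (a b a' b' : L × Fin m → Bool),
          (∀ p, p ∉ D ∨ (!(decide (∀ ρ, T p.1 (c p.1) (.inl (p.2, false, ρ)) ∈ pX A))) = true →
            a p = a' p) →
          (∀ p, p ∉ D ∨ (!(decide (∀ ρ, T p.1 (c p.1) (.inl (p.2, false, ρ)) ∈ pX A))) = false →
            b p = b' p) →
          ∀ s, s ∉ A → s ∈ sel T c a b w → s ∈ sel T c a' b' w := by
        intro a b a' b' ha hb s hsA hs
        rcases s with x | ⟨i, q⟩
        · obtain ⟨i, σ, h1, h2⟩ := inl_mem_sel.1 hs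
          refine inl_mem_sel.2 ⟨i, σ, ?_, h2⟩
          have hxA : T i (c i) σ ∉ pX A := by rw [h2]; exact fun h => hsA (mem_pX.1 h)
          rcases σ with ⟨l, _ | _, ρ⟩ | ρ
          · show a' (i, l) = ρ
            have h3 : a (i, l) = ρ := h1
            rw [← h3]
            refine (ha (i, l) ?_).symm
            by_cases hp : (i, l) ∈ D
            · right
              rcases (mem_filter.1 hp).2 with h4 | h4
              · exact absurd (h4.1 ρ) hxA
              · simp only [Bool.not_eq_true', decide_eq_false_iff_not]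
                exact fun h5 => h4.1 true (h5 true)
            · exact Or.inl hp
          · show b' (i, l) = ρ
            have h3 : b (i, l) = ρ := h1
            rw [← h3]
            refine (hb (i, l) ?_).symm
            by_cases hp : (i, l) ∈ D
            · right
              rcases (mem_filter.1 hp).2 with h4 | h4
              · simp only [Bool.not_eq_false', decide_eq_true_eq]
                exact h4.1
              · exact absurd (h4.2 ρ) hxA
            · exact Or.inl hp
          · exact h1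
        · exact inr_mem_sel.2 (inr_mem_sel.1 hs)
      intro s hs
      exact ⟨key a b a' b' ha hb s hs, key a' b' a b (fun p hp => (ha p hp).symm)
        (fun p hp => (hb p hp).symm) s hs⟩
  have h2 : ∀ w : L → Bool, |∑ a : L × Fin m → Bool, ∑ b : L × Fin m → Bool,
      (∏ p, sg (a p && b p)) * ((∏ i, sg (w i)) * (g (sel T c a b w) * h (sel T c a b w)))| ≤
      4 ^ Fintype.card (L × Fin m) * (5 / 7) ^ D.card := by
    intro w
    have h3 : ∑ a : L × Fin m → Bool, ∑ b : L × Fin m → Bool,
        (∏ p, sg (a p && b p)) * ((∏ i, sg (w i)) * (g (sel T c a b w) * h (sel T c a b w))) =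
        (γ * ∏ i, sg (w i)) * ∑ a : L × Fin m → Bool, ∑ b : L × Fin m → Bool,
          (∏ p, sg (a p && b p)) * (u (sel T c a b w) * v (sel T c a b w)) := by
      rw [Finset.mul_sum]
      refine Finset.sum_congr rfl fun a _ => ?_
      rw [Finset.mul_sum]
      refine Finset.sum_congr rfl fun b _ => ?_
      rw [huv]
      ring
    rw [h3, abs_mul, abs_mul, abs_of_nonneg hγ0, prod_le_one_abs _ fun i => abs_sg _, mul_one]
    calc _ ≤ 1 * |∑ a : L × Fin m → Bool, ∑ b : L × Fin m → Bool,
          (∏ p, sg (a p && b p)) * (u (sel T c a b w) * v (sel T c a b w))| :=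
          mul_le_mul_of_nonneg_right hγ1 (abs_nonneg _)
      _ ≤ _ := by rw [one_mul]; exact hw w
  rw [hwt]
  calc _ ≤ ∑ _w : L → Bool, 4 ^ Fintype.card (L × Fin m) * (5 / 7 : ℝ) ^ D.card :=
        (Finset.abs_sum_le_sum_abs _ _).trans (Finset.sum_le_sum fun w _ => h2 w)
    _ = _ := by
        rw [Finset.sum_const, card_univ, Fintype.card_fun, Fintype.card_bool]
        simp

theorem one_le (T : L → Q → Sl m → X) {E : Type} [Fintype E]
    (A : E → Finset (X ⊕ L × Q)) (g h : E → Finset (X ⊕ L × Q) → ℝ)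
    (h2 : ∀ e S, 0 ≤ g e S) (h3 : ∀ e S, 0 ≤ h e S) (h4 : ∀ e, DependsOn (g e) (A e))
    (h5 : ∀ e, IndepOf (h e) (A e)) (f : Finset (X ⊕ L × Q) → ℝ) (hf : ∀ S, f S ≤ 1)
    (h6 : ∀ S, f S = ∑ e, g e S * h e S) (c : L → Q)
    (hc : |lam T c f| = 4 ^ Fintype.card (L × Fin m)) :
    (1 : ℝ) ≤ 2 ^ Fintype.card L * ∑ e, ∏ i, wt (pX (A e)) (T i (c i)) := by
  have hgh : ∀ e S, g e S * h e S ≤ 1 := by
    intro e S
    have h7 : g e S * h e S ≤ ∑ e, g e S * h e S :=
      Finset.single_le_sum (f := fun e => g e S * h e S)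
        (fun e _ => mul_nonneg (h2 e S) (h3 e S)) (mem_univ e)
    refine h7.trans ?_
    rw [← h6]
    exact hf S
  have h8 : lam T c f = ∑ e, lam T c fun S => g e S * h e S := by
    rw [← lam_sum T c fun e S => g e S * h e S]
    congr 1
    funext S
    exact h6 S
  have h12 : (0 : ℝ) < 4 ^ Fintype.card (L × Fin m) := by positivity
  have h9 : (4 : ℝ) ^ Fintype.card (L × Fin m) ≤ 4 ^ Fintype.card (L × Fin m) *
        (2 ^ Fintype.card L * ∑ e, ∏ i, wt (pX (A e)) (T i (c i))) := by
    calc (4 : ℝ) ^ Fintype.card (L × Fin m) = |lam T c f| := hc.symm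
      _ = |∑ e, lam T c fun S => g e S * h e S| := by rw [h8]
      _ ≤ ∑ e, |lam T c fun S => g e S * h e S| := Finset.abs_sum_le_sum_abs _ _
      _ ≤ ∑ e, 2 ^ Fintype.card L * (4 ^ Fintype.card (L × Fin m) *
          ∏ i, wt (pX (A e)) (T i (c i))) := Finset.sum_le_sum fun e _ =>
          rect_bound T c (A e) (g e) (h e) (h2 e) (h3 e) (h4 e) (h5 e) (hgh e)
      _ = _ := by
          rw [Finset.mul_sum, Finset.mul_sum]
          exact Finset.sum_congr rfl fun e _ => by ring
  exact (le_mul_iff_one_le_right h12).1 h9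

/-- the functional of the function and of its complement -/
theorem lam_FF (j : ℕ) (T : Lf j → Q → Sl m → X) (c : Lf j → Q) (hc : Inj T c) :
    |lam T c fun S => ind (FF j T S)| = 4 ^ Fintype.card (Lf j × Fin m) := by
  have h7 : lam T c (fun S => ind (FF j T S)) = -(4 ^ Fintype.card (Lf j × Fin m)) :=
    corr j T c hc
  rw [h7, abs_neg, abs_of_pos (by positivity)]

theorem ind_not (p : Prop) : ind (¬ p) = 1 - ind p := by
  unfold ind
  by_cases hp : p
  · rw [if_neg (not_not.2 hp), if_pos hp]; norm_num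
  · rw [if_pos hp, if_neg hp]; norm_num

theorem lam_not (j : ℕ) (T : Lf j → Q → Sl m → X) (c : Lf j → Q) (hc : Inj T c) :
    |lam T c fun S => ind (¬ FF j T S)| = 4 ^ Fintype.card (Lf j × Fin m) := by
  have h1 : lam T c (fun S => ind (¬ FF j T S)) = -lam T c (fun S => ind (FF j T S)) := by
    have h2 : lam T c (fun S => ind (¬ FF j T S)) + lam T c (fun S => ind (FF j T S)) = 0 := by
      unfold lam
      rw [← Finset.sum_add_distrib]
      have h3 : ∀ w : Lf j → Bool, ((∑ a : Lf j × Fin m → Bool, ∑ b : Lf j × Fin m → Bool,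
          (∏ p, sg (a p && b p)) * ((∏ i, sg (w i)) * ind (¬ FF j T (sel T c a b w)))) +
          ∑ a : Lf j × Fin m → Bool, ∑ b : Lf j × Fin m → Bool,
          (∏ p, sg (a p && b p)) * ((∏ i, sg (w i)) * ind (FF j T (sel T c a b w)))) =
          (∏ i, sg (w i)) * ∑ a : Lf j × Fin m → Bool, ∑ b : Lf j × Fin m → Bool,
            ∏ p, sg (a p && b p) := by
        intro w
        rw [← Finset.sum_add_distrib, Finset.mul_sum]
        refine Finset.sum_congr rfl fun a _ => ?_
        rw [← Finset.sum_add_distrib, Finset.mul_sum]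
        refine Finset.sum_congr rfl fun b _ => ?_
        rw [ind_not]
        ring
      rw [Finset.sum_congr rfl fun w _ => h3 w, ← Finset.sum_mul, sum_sg, zero_mul]
    linarith
  rw [h1, abs_neg, lam_FF j T c hc]

open Classical in
/-- the number of the choices without overlap -/
noncomputable def nInj (T : L → Q → Sl m → X) : ℕ := (univ.filter fun c : L → Q => Inj T c).card

open Classical in
theorem sum_inj_le (T : L → Q → Sl m → X) (A : Finset X) :
    ∑ c ∈ univ.filter (fun c : L → Q => Inj T c), ∏ i, wt A (T i (c i)) ≤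
      ∏ i, ∑ q, wt A (T i q) := by
  rw [← sum_prod_pi (fun i q => wt A (T i q))]
  exact Finset.sum_le_sum_of_subset_of_nonneg (filter_subset _ _) fun c _ _ =>
    Finset.prod_nonneg fun i _ => wt_nonneg _ _

/-- **the lower bound for one design**: `M` bounds the products of the total weights for all balanced
sets -/
theorem count_le (T : L → Q → Sl m → X) (M : ℝ)
    (hM : ∀ A : Finset X, Fintype.card X ≤ 3 * A.card → 3 * A.card ≤ 2 * Fintype.card X →
      ∏ i, ∑ q, wt A (T i q) ≤ M) (hX : 2 ≤ Fintype.card X) {t : ℕ}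
    (ht : 3 * t ≤ 2 * Fintype.card X) (C : Circ (X ⊕ L × Q) t) (o : Fin C.size)
    (f : Finset (X ⊕ L × Q) → ℝ) (hf : ∀ S, f S ≤ 1) (hC : ∀ S, C.val o S = f S)
    (hlam : ∀ c, Inj T c → |lam T c f| = 4 ^ Fintype.card (L × Fin m)) :
    (nInj T : ℝ) ≤ 2 ^ Fintype.card L * ((2 * C.size + 1) * M) := by
  classical
  have hcX : ((univ : Finset X).map
      (Function.Embedding.inl : X ↪ X ⊕ L × Q)).card = Fintype.card X := by
    rw [card_map, card_univ]
  obtain ⟨A, g, h, h1, h2, h3, h4, h5, h6⟩ := C.decomp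
    ((univ : Finset X).map (Function.Embedding.inl : X ↪ X ⊕ L × Q)) (by rw [hcX]; exact hX)
    (by rw [hcX]; exact ht) o
  have hone : ∀ c : L → Q, Inj T c →
      (1 : ℝ) ≤ 2 ^ Fintype.card L * ∑ e, ∏ i, wt (pX (A e)) (T i (c i)) := fun c hc =>
    one_le T A g h h2 h3 h4 h5 f hf (fun S => (hC S).symm.trans (h6 S)) c (hlam c hc)
  have hE : (Fintype.card (Option (Fin C.size × Bool)) : ℝ) = 2 * C.size + 1 := by
    rw [Fintype.card_option, Fintype.card_prod, Fintype.card_fin, Fintype.card_bool]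
    push_cast
    ring
  have hbal : ∀ e, ∏ i, ∑ q, wt (pX (A e)) (T i q) ≤ M := by
    intro e
    obtain ⟨a1, a2⟩ := h1 e
    rw [hcX, card_pX] at a1 a2
    exact hM (pX (A e)) a1 a2
  have s1 : (nInj T : ℝ) = ∑ _c ∈ univ.filter (fun c : L → Q => Inj T c), (1 : ℝ) := by
    rw [Finset.sum_const, nsmul_eq_mul, mul_one]
    rfl
  have s2 : ∑ _c ∈ univ.filter (fun c : L → Q => Inj T c), (1 : ℝ) ≤
      ∑ c ∈ univ.filter (fun c : L → Q => Inj T c),
        2 ^ Fintype.card L * ∑ e, ∏ i, wt (pX (A e)) (T i (c i)) :=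
    Finset.sum_le_sum fun c hc => hone c (mem_filter.1 hc).2
  have s3 : ∑ c ∈ univ.filter (fun c : L → Q => Inj T c),
        2 ^ Fintype.card L * ∑ e, ∏ i, wt (pX (A e)) (T i (c i)) =
      2 ^ Fintype.card L * ∑ e, ∑ c ∈ univ.filter (fun c : L → Q => Inj T c),
          ∏ i, wt (pX (A e)) (T i (c i)) := by
    rw [← Finset.mul_sum, Finset.sum_comm]
  have s4 : ∑ e, ∑ c ∈ univ.filter (fun c : L → Q => Inj T c),
        ∏ i, wt (pX (A e)) (T i (c i)) ≤ ∑ _e : Option (Fin C.size × Bool), M :=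
    Finset.sum_le_sum fun e _ => (sum_inj_le T (pX (A e))).trans (hbal e)
  have s5 : ∑ _e : Option (Fin C.size × Bool), M = (2 * C.size + 1) * M := by
    rw [Finset.sum_const, card_univ, nsmul_eq_mul, hE]
  rw [s1]
  refine s2.trans ?_
  rw [s3, ← s5]
  exact mul_le_mul_of_nonneg_left s4 (by positivity)

end Pool.Agent.L5helper60.DN
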